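import Pool.Agent.TH687.HL2

/-!
Memory organised in blocks of `M` cells; loops that fill a block.
-/

set_option autoImplicit false

namespace Pool.Agent.TH687.DCS

open Pool.Agent.H588R2 Pool.Agent.TH687.HL

/-- Address of cell `x` of block `q` (register `2` holds the block size). -/
def cell (q x : Ex) : Ex := .add (.mul q (.r 2)) x

/-- Content of cell `X` of block `q`. -/
def bl (M : ℕ) (s : St) (q X : ℕ) : ℕ := s.mem (q * M + X)

theorem cell_ev (q x : Ex) (s : St) : (cell q x).ev s = q.ev s * s.reg 2 + x.ev s := rfl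

/-- Only cells in blocks satisfying `P` may change. -/
def Keep (M : ℕ) (P : ℕ → Prop) (s s' : St) : Prop :=
  ∀ a, ¬ P (a / M) → s'.mem a = s.mem a

theorem Keep.refl (M : ℕ) (P : ℕ → Prop) (s : St) : Keep M P s s := fun _ _ => rfl

theorem Keep.of_mem {M : ℕ} {P : ℕ → Prop} {s s' : St} (h : s'.mem = s.mem) : Keep M P s s' :=
  fun _ _ => by rw [h]

theorem Keep.trans {M : ℕ} {P : ℕ → Prop} {s s' s'' : St} (h : Keep M P s s')
    (h' : Keep M P s' s'') : Keep M P s s'' := fun a ha => (h' a ha).trans (h a ha)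

theorem Keep.mono {M : ℕ} {P P' : ℕ → Prop} {s s' : St} (h : Keep M P s s')
    (hP : ∀ q, P q → P' q) : Keep M P' s s' := fun a ha => h a (fun h' => ha (hP _ h'))

theorem Keep.bl {M : ℕ} {P : ℕ → Prop} {s s' : St} (h : Keep M P s s') {q X : ℕ} (hX : X < M)
    (hq : ¬ P q) : bl M s' q X = bl M s q X := by
  apply h
  have : (q * M + X) / M = q := by
    rw [Nat.mul_comm, Nat.mul_add_div (by omega), Nat.div_eq_of_lt hX, Nat.add_zero]
  rw [this]; exact hq

theorem cell_inj {M q q' X X' : ℕ} (hX : X < M) (hX' : X' < M) (h : q * M + X = q' * M + X') :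
    q = q' ∧ X = X' := by
  have h1 : (q * M + X) / M = q := by
    rw [Nat.mul_comm, Nat.mul_add_div (by omega), Nat.div_eq_of_lt hX, Nat.add_zero]
  have h2 : (q' * M + X') / M = q' := by
    rw [Nat.mul_comm, Nat.mul_add_div (by omega), Nat.div_eq_of_lt hX', Nat.add_zero]
  have : q = q' := by rw [← h1, ← h2, h]
  subst this
  exact ⟨rfl, by omega⟩

/-- A loop over `X < M` (register `11`; bound in register `2`) that computes the value `val X` and
stores it in cell `X` of block `q`. -/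
def fill (c : HC) (qe e : Ex) : HC := .loop 11 2 (.seq c (.sto (cell qe (.r 11)) e))

theorem tr_fill {w M τ q Qm T : ℕ} {c : HC} {qe e : Ex} {s : St} {val : ℕ → ℕ} {Q : St → Prop}
    (hM : s.reg 2 = M) (hMz : M < 2 ^ w) (hQM : Qm * M ≤ 2 ^ w) (hq : q < Qm) (h2 : 2 ∉ c.wr) (h11 : 11 ∉ c.wr)
    (hw : 1 < 2 ^ w)
    (hT : M * (τ + (qe.cost + e.cost + 11)) + 3 ≤ T)
    (hstep : ∀ X < M, ∀ s' : St, (∀ y, y ≠ 11 → y ∉ c.wr → s'.reg y = s.reg y) →
      s'.reg 11 = X → Keep M (fun q' => q' = q) s s' → (∀ Y < X, bl M s' q Y = val Y) →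
      (∀ Y, X ≤ Y → Y < M → bl M s' q Y = bl M s q Y) →
      Tr w c s' τ (fun s'' => s''.mem = s'.mem ∧ qe.ok w s'' ∧ qe.ev s'' = q ∧ e.ok w s'' ∧
        e.ev s'' = val X))
    (hQ : ∀ s', Keep M (fun q' => q' = q) s s' → (∀ Y < M, bl M s' q Y = val Y) →
      (∀ y, y ≠ 11 → y ∉ c.wr → s'.reg y = s.reg y) → Q s') :
    Tr w (fill c qe e) s T Q := by
  refine Tr.loop (fun X s' => Keep M (fun q' => q' = q) s s' ∧ (∀ Y < X, bl M s' q Y = val Y) ∧
      (∀ Y, X ≤ Y → Y < M → bl M s' q Y = bl M s q Y)) (τ + (qe.cost + e.cost + 7))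
      hM hMz hw ?_ ?_ ?_ ?_
  · refine le_trans (le_of_eq ?_) hT
    ring
  · refine ⟨Keep.of_mem rfl, fun Y hY => by omega, fun Y _ _ => rfl⟩
  · rintro X hX s' ⟨hK, hlo, hhi⟩ hx hfr
    have hfr' : ∀ y, y ≠ 11 → y ∉ c.wr → s'.reg y = s.reg y := fun y h1 h2 =>
      hfr y h1 (by simp only [HC.wr, List.append_nil]; exact h2)
    have hc := hstep X hX s' hfr' hx hK hlo hhi
    apply Tr.seq
    refine hc.fr le_rfl ?_
    rintro s1 ⟨hm, hqo, hqe, heo, hev⟩ hfr1
    have r2 : s1.reg 2 = M := by rw [hfr1 2 h2, hfr' 2 (by norm_num) h2, hM]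
    have r11 : s1.reg 11 = X := by rw [hfr1 11 h11, hx]
    have hcell : (cell qe (.r 11)).ev s1 = q * M + X := by
      rw [cell_ev, hqe, r2]; simp [Ex.ev, r11]
    have hb : q * M + X < Qm * M := by
      calc q * M + X < q * M + M := by omega
        _ = (q + 1) * M := by ring
        _ ≤ Qm * M := Nat.mul_le_mul_right _ hq
    apply Tr.sto
    · refine ⟨⟨hqo, ?_, ?_⟩, ?_, ?_⟩
      · simp only [Ex.ok, r2]; exact hMz
      · simp only [Ex.ev, hqe, r2]; omega
      · simp only [Ex.ok, r11]; omega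
      · simp only [Ex.ev, hqe, r2, r11]; omega
    · exact heo
    · simp only [cell, Ex.cost]; omega
    · rw [hcell, hev]
      refine ⟨?_, ?_, ?_⟩
      · intro a ha
        simp only [St.set_mem, put]
        rw [Function.update_of_ne, hm]
        · exact hK a ha
        · intro e'
          apply ha
          rw [e', Nat.mul_comm, Nat.mul_add_div (by omega), Nat.div_eq_of_lt hX, Nat.add_zero]
      · intro Y hY
        simp only [bl, St.set_mem, put]
        by_cases e' : Y = X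
        · subst e'; simp
        · rw [Function.update_of_ne (by omega), hm]
          exact hlo Y (by omega)
      · intro Y hY hYM
        simp only [bl, St.set_mem, put]
        rw [Function.update_of_ne (by omega), hm]
        exact hhi Y (by omega) hYM
  · rintro s' ⟨hK, hlo, _⟩ _ hfr
    refine hQ s' hK hlo (fun y h1 h2 => hfr y h1 (by simp only [HC.wr, List.append_nil]; exact h2))

/-- Read cell `x` of block `q`. -/
def rd (q x : Ex) : Ex := .ld (cell q x)

theorem rd_ev {M : ℕ} {q x : Ex} {s : St} (hM : s.reg 2 = M) :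
    (rd q x).ev s = bl M s (q.ev s) (x.ev s) := by
  simp only [rd, Ex.ev, cell_ev, bl, hM]

theorem rd_ok {w M Qm : ℕ} {q x : Ex} {s : St} (hM : s.reg 2 = M) (hMz : M < 2 ^ w)
    (hQM : Qm * M ≤ 2 ^ w) (hqo : q.ok w s) (hxo : x.ok w s) (hq : q.ev s < Qm)
    (hx : x.ev s < M) (hv : bl M s (q.ev s) (x.ev s) < 2 ^ w) : (rd q x).ok w s := by
  have hb : q.ev s * M + x.ev s < Qm * M := by
    calc q.ev s * M + x.ev s < q.ev s * M + M := by omega
      _ = (q.ev s + 1) * M := by ring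
      _ ≤ Qm * M := Nat.mul_le_mul_right _ hq
  refine ⟨⟨⟨hqo, ?_, ?_⟩, hxo, ?_⟩, ?_⟩
  · simp only [Ex.ok, hM]; exact hMz
  · simp only [Ex.ev, hM]; omega
  · simp only [Ex.ev, hM]; omega
  · simp only [cell_ev, hM]; exact hv

/-- Repeat `c` for `v = 0, …, n - 1` (register `10`; bound in register `0`), keeping `2 ^ v` in
register `4`. -/
def pwLoop (c : HC) : HC :=
  .seq (.asg 4 (.c 1)) (.loop 10 0 (.seq c (.asg 4 (.add (.r 4) (.r 4)))))

theorem tr_pw {w n τ T : ℕ} {c : HC} {s : St} {Q : St → Prop} (I : ℕ → St → Prop)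
    (hn : s.reg 0 = n) (hnw : n < 2 ^ w) (hpw : 2 ^ n < 2 ^ w) (hw : 1 < 2 ^ w)
    (h4 : 4 ∉ c.wr) (h10 : 10 ∉ c.wr)
    (hT : n * (τ + 11) + 6 ≤ T)
    (hI : ∀ i s' s'', s''.mem = s'.mem → (∀ y, y ≠ 4 → y ≠ 10 → s''.reg y = s'.reg y) →
      I i s' → I i s'')
    (h0 : I 0 s)
    (hstep : ∀ v < n, ∀ s', I v s' → s'.reg 4 = 2 ^ v → s'.reg 10 = v →
      (∀ y, y ≠ 4 → y ≠ 10 → y ∉ c.wr → s'.reg y = s.reg y) → Tr w c s' τ (I (v + 1)))
    (hQ : ∀ s', I n s' → (∀ y, y ≠ 4 → y ≠ 10 → y ∉ c.wr → s'.reg y = s.reg y) → Q s') :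
    Tr w (pwLoop c) s T Q := by
  have hT' : 3 + (T - 3) = T := by omega
  rw [← hT']
  apply Tr.seq
  apply Tr.asg (by simpa [Ex.ok] using hw) (by simp [Ex.cost])
  simp only [Ex.ev]
  refine Tr.loop (fun v s' => I v s' ∧ s'.reg 4 = 2 ^ v) (τ + 7) ?_ hnw hw ?_ ?_ ?_ ?_
  · rw [St.set_reg_ne _ _ (by norm_num), hn]
  · have : n * (τ + 7 + 4) + 3 = n * (τ + 11) + 3 := by ring
    omega
  · refine ⟨hI 0 s _ rfl ?_ h0, ?_⟩
    · intro y h1 h2
      rw [St.set_reg_ne _ _ h2, St.set_reg_ne _ _ h1]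
    · rw [St.set_reg_ne _ _ (by norm_num), St.set_reg_self, pow_zero]
  · rintro v hv s' ⟨hIv, h4v⟩ hx hfr
    have hfr' : ∀ y, y ≠ 4 → y ≠ 10 → y ∉ c.wr → s'.reg y = s.reg y := by
      intro y h1 h2 h3
      rw [hfr y h2 (by simp only [HC.wr, List.mem_append, List.mem_singleton]; tauto),
        St.set_reg_ne _ _ h1]
    apply Tr.seq
    refine (hstep v hv s' hIv h4v hx hfr').fr le_rfl ?_
    intro s1 hI1 hfr1
    have r4 : s1.reg 4 = 2 ^ v := by rw [hfr1 4 h4, h4v]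
    have hle : 2 ^ v + 2 ^ v < 2 ^ w := by
      have : 2 ^ (v + 1) ≤ 2 ^ n := Nat.pow_le_pow_right (by norm_num) (by omega)
      rw [pow_succ] at this; omega
    apply Tr.asg
    · simp only [Ex.ok, Ex.ev, r4]; omega
    · simp [Ex.cost]
    · simp only [Ex.ev, r4]
      refine ⟨hI _ s1 _ rfl ?_ hI1, ?_⟩
      · intro y h1 h2
        rw [St.set_reg_ne _ _ h2, St.set_reg_ne _ _ h1]
      · rw [St.set_reg_ne _ _ (by norm_num), St.set_reg_self, pow_succ]; ring
  · rintro s' ⟨hIn, _⟩ _ hfr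
    refine hQ s' hIn ?_
    intro y h1 h2 h3
    rw [hfr y h2 (by simp only [HC.wr, List.mem_append, List.mem_singleton]; tauto),
      St.set_reg_ne _ _ h1]

/-- Bound for the time of a loop. -/
theorem bnd {N N' A c1 c2 c3 C : ℕ} (hN : N ≤ N') (hN' : 1 ≤ N') (hA : 1 ≤ A)
    (hC : c1 + c2 + c3 ≤ C) : N * (c1 * A + c2) + c3 ≤ C * (N' * A) := by
  have h1 : N * (c1 * A + c2) ≤ N' * ((c1 + c2) * A) := by
    apply Nat.mul_le_mul hN
    nlinarith
  have h2 : 1 ≤ N' * A := Nat.one_le_iff_ne_zero.2 (by positivity)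
  calc N * (c1 * A + c2) + c3 ≤ N' * ((c1 + c2) * A) + c3 * (N' * A) := by nlinarith
    _ = (c1 + c2 + c3) * (N' * A) := by ring
    _ ≤ C * (N' * A) := Nat.mul_le_mul_right _ hC

end Pool.Agent.TH687.DCS
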