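import Mathlib

/-!
Connected vertex sets and packings of them.
-/

set_option autoImplicit false

namespace Pool.Agent.TH687.DCS

open Finset

variable {n : ℕ}

/-- `S` induces a connected (nonempty) subgraph. -/
def Conn (G : SimpleGraph (Fin n)) (S : Finset (Fin n)) : Prop :=
  (G.induce (S : Set (Fin n))).Connected

theorem conn_iff (G : SimpleGraph (Fin n)) (S : Finset (Fin n)) :
    Conn G S ↔ ∃ v ∈ S, (S.erase v = ∅ ∨ (Conn G (S.erase v) ∧ ∃ u ∈ S.erase v, G.Adj u v)) := by
  classical
  constructor
  · intro h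
    have hne := h.nonempty
    obtain ⟨⟨v0, hv0⟩⟩ := hne
    by_cases hs : S.erase v0 = ∅
    · exact ⟨v0, hv0, Or.inl hs⟩
    · obtain ⟨v1, hv1⟩ := Finset.nonempty_iff_ne_empty.2 hs
      rw [mem_erase] at hv1
      have hnt : Nontrivial (S : Set (Fin n)) :=
        ⟨⟨⟨v0, hv0⟩, ⟨v1, hv1.2⟩, by
          intro e
          apply hv1.1
          have := congrArg Subtype.val e
          exact this.symm⟩⟩
      obtain ⟨⟨w, hw⟩, hcw⟩ :=
        SimpleGraph.Connected.exists_connected_induce_compl_singleton_of_finite_nontrivial h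
      refine ⟨w, hw, Or.inr ⟨?_, ?_⟩⟩
      · let f : ((G.induce (S : Set (Fin n))).induce {(⟨w, hw⟩ : (S : Set (Fin n)))}ᶜ) →g
            G.induce ((S.erase w : Finset (Fin n)) : Set (Fin n)) :=
          { toFun := fun x => ⟨x.1.1, by
              rw [mem_coe, mem_erase]
              refine ⟨fun e => ?_, x.1.2⟩
              apply x.2
              exact Subtype.ext e⟩
            map_rel' := by
              intro a b hab
              exact hab }
        refine hcw.map f ?_
        rintro ⟨y, hy⟩
        have hy' := hy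
        rw [mem_coe, mem_erase] at hy'
        exact ⟨⟨⟨y, hy'.2⟩, fun e => hy'.1 (congrArg Subtype.val e)⟩, rfl⟩
      · obtain ⟨⟨u, hu⟩, hadj⟩ : ∃ u, (G.induce (S : Set (Fin n))).Adj ⟨w, hw⟩ u := by
          have := h.preconnected.degree_pos_of_nontrivial ⟨w, hw⟩
          rw [← SimpleGraph.card_neighborFinset_eq_degree, card_pos] at this
          obtain ⟨u, hu⟩ := this
          rw [SimpleGraph.mem_neighborFinset] at hu
          exact ⟨u, hu⟩
        have hadj' : G.Adj w u := hadj
        exact ⟨u, by rw [mem_erase]; exact ⟨fun e => hadj'.ne e.symm, hu⟩, hadj'.symm⟩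
  · rintro ⟨v, hv, h | ⟨h, u, hu, hadj⟩⟩
    · have hS : S = {v} := by
        rw [← insert_erase hv, h]; rfl
      subst hS
      unfold Conn
      rw [SimpleGraph.connected_iff_exists_forall_reachable]
      refine ⟨⟨v, hv⟩, ?_⟩
      rintro ⟨w, hw⟩
      have : w = v := by simpa using hw
      subst this
      exact SimpleGraph.Reachable.refl _
    · unfold Conn
      have h1 : ((S : Set (Fin n))) = {v} ∪ ((S.erase v : Finset (Fin n)) : Set (Fin n)) := by
        rw [coe_erase]
        ext x
        simp only [mem_coe, Set.singleton_union, Set.insert_sdiff_singleton, Set.mem_insert_iff]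
        constructor
        · intro hx; exact Or.inr hx
        · rintro (rfl | hx)
          · exact hv
          · exact hx
      have h2 := SimpleGraph.connected_induce_union (G := G) (s := {v})
        (t := ((S.erase v : Finset (Fin n)) : Set (Fin n))) (v := v) (w := u) (by
          rintro ⟨a, ha⟩ ⟨b, hb⟩
          have ha' : a = v := ha
          have hb' : b = v := hb
          subst ha'; subst hb'
          exact SimpleGraph.Reachable.refl _) h.preconnected rfl (mem_coe.2 hu) hadj.symm
      rw [h1]
      exact h2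

/-- The first `i` demands can be satisfied by disjoint connected sets inside `X`. -/
def Pack (G : SimpleGraph (Fin n)) (Z : ℕ → Finset (Fin n)) (i : ℕ) (X : Finset (Fin n)) : Prop :=
  ∃ D : ℕ → Finset (Fin n), (∀ j < i, Z j ⊆ D j ∧ Conn G (D j) ∧ D j ⊆ X) ∧
    ∀ j < i, ∀ l < i, j ≠ l → Disjoint (D j) (D l)

theorem pack_zero (G : SimpleGraph (Fin n)) (Z : ℕ → Finset (Fin n)) (X : Finset (Fin n)) :
    Pack G Z 0 X := ⟨fun _ => ∅, by intro j hj; omega, by intro j hj; omega⟩

theorem pack_succ (G : SimpleGraph (Fin n)) (Z : ℕ → Finset (Fin n)) (i : ℕ)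
    (X : Finset (Fin n)) :
    Pack G Z (i + 1) X ↔ ∃ A B : Finset (Fin n), Pack G Z i A ∧ (Z i ⊆ B ∧ Conn G B) ∧
      Disjoint A B ∧ A ∪ B = X := by
  classical
  constructor
  · rintro ⟨D, h1, h2⟩
    obtain ⟨a1, a2, a3⟩ := h1 i (by omega)
    refine ⟨X \ D i, D i, ⟨D, ?_, fun j hj l hl => h2 j (by omega) l (by omega)⟩, ⟨a1, a2⟩,
      sdiff_disjoint, ?_⟩
    · intro j hj
      obtain ⟨b1, b2, b3⟩ := h1 j (by omega)
      refine ⟨b1, b2, ?_⟩
      rw [subset_sdiff]
      exact ⟨b3, h2 j (by omega) i (by omega) (by omega)⟩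
    · exact sdiff_union_of_subset a3
  · rintro ⟨A, B, ⟨D, h1, h2⟩, ⟨hZ, hC⟩, hd, hU⟩
    refine ⟨fun j => if j = i then B else D j, ?_, ?_⟩
    · intro j hj
      by_cases e : j = i
      · subst e
        simp only [if_true]
        exact ⟨hZ, hC, by rw [← hU]; exact subset_union_right⟩
      · simp only [if_neg e]
        obtain ⟨b1, b2, b3⟩ := h1 j (by omega)
        exact ⟨b1, b2, by rw [← hU]; exact b3.trans subset_union_left⟩
    · intro j hj l hl hjl
      have hD : ∀ j < i, Disjoint (D j) B := fun j hj => hd.mono_left (h1 j hj).2.2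
      by_cases e : j = i
      · by_cases e' : l = i
        · omega
        · simp only [if_pos e, if_neg e']
          exact (hD l (by omega)).symm
      · by_cases e' : l = i
        · simp only [if_neg e, if_pos e']
          exact hD j (by omega)
        · simp only [if_neg e, if_neg e']
          exact h2 j (by omega) l (by omega) hjl

end Pool.Agent.TH687.DCS
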