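import Pool.Agent.TH687.DCS.Prog7

/-!
The whole program.
-/

set_option autoImplicit false

namespace Pool.Agent.TH687.DCS

open Pool.Agent.H588R2 Pool.Agent.TH687.HL

/-- The demands, from the labels. -/
def zl (n : ℕ) (lab : ℕ → ℕ) (i : ℕ) : Finset (Fin n) :=
  Finset.univ.filter (fun v : Fin n => lab v = i + 1)

open Classical in
/-- Boolean form of `Pack`. -/
noncomputable def pk {n : ℕ} (G : SimpleGraph (Fin n)) (lab : ℕ → ℕ) (i : ℕ)
    (S : Finset (Fin n)) : Bool := decide (Pack G (zl n lab) i S)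

theorem pk_true {n : ℕ} {G : SimpleGraph (Fin n)} {lab : ℕ → ℕ} {i : ℕ} {S : Finset (Fin n)} :
    pk G lab i S = true ↔ Pack G (zl n lab) i S := by
  classical
  unfold pk; exact decide_eq_true_iff

theorem fam_true {n : ℕ} {G : SimpleGraph (Fin n)} {lab : ℕ → ℕ} {i : ℕ} {S : Finset (Fin n)} :
    fam G lab (i + 1) S = true ↔ (zl n lab i ⊆ S ∧ Conn G S) := by
  classical
  unfold fam
  rw [Bool.and_eq_true, decide_eq_true_iff]
  constructor
  · rintro ⟨h1, h2⟩
    refine ⟨?_, ?_⟩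
    · intro v hv
      simp only [zl, Finset.mem_filter, Finset.mem_univ, true_and] at hv
      exact h2 v hv
    · unfold cn at h1; exact of_decide_eq_true h1
  · rintro ⟨h1, h2⟩
    refine ⟨cn_true h2, ?_⟩
    intro v hv
    exact h1 (by simp only [zl, Finset.mem_filter, Finset.mem_univ, true_and]; exact hv)

theorem cvb_pk {n : ℕ} (G : SimpleGraph (Fin n)) (lab : ℕ → ℕ) (i : ℕ) :
    cvb (pk G lab i) (fam G lab (i + 1)) = pk G lab (i + 1) := by
  funext S
  rw [Bool.eq_iff_iff, cvb_true, pk_true, pack_succ]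
  unfold Conv
  constructor
  · rintro ⟨A, B, h1, h2, h3, h4⟩
    exact ⟨A, B, pk_true.1 h1, fam_true.1 h2, h3, h4⟩
  · rintro ⟨A, B, h1, h2, h3, h4⟩
    exact ⟨A, B, pk_true.2 h1, fam_true.2 h2, h3, h4⟩

/-- The program. -/
def main : HC :=
  .seq (.asg 2 (.c 1)) (.seq (.loop 10 0 (.asg 2 (.add (.r 2) (.r 2))))
    (.seq (.asg 3 (.add (.r 0) (.c 1))) (.seq codeB (.seq codeP (.seq codeC (.seq codeG
      (.seq (.loop 14 1 stage) (.asg 0 (rd qG (.sub (.r 2) (.c 1)))))))))))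

theorem main_wf : main.wf = true := by decide

theorem tr_main {w n k : ℕ} {G : SimpleGraph (Fin n)} {lab : ℕ → ℕ} {s : St}
    (P : Par w n (2 ^ n)) (h0 : s.reg 0 = n) (h1 : s.reg 1 = k) (hk : k ≤ n)
    (hI : Inp n (2 ^ n) (adjF G) lab s) (hlab : ∀ v < n, lab v ≤ n) :
    Tr w main s (3000 * (2 ^ n * ((n + 1) * ((n + 1) * (n + 1)))))
      (fun s' => s'.reg 0 = (pk G lab k Finset.univ).toNat) := by
  obtain ⟨M, hM⟩ : ∃ M, M = 2 ^ n := ⟨_, rfl⟩
  rw [← hM] at P hI ⊢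
  have b1 := P.b1
  have b3 := P.b3
  have b4 := P.b4
  have hpos := P.pos
  have hMw := P.Mw
  obtain ⟨N1, hN1⟩ : ∃ N1, N1 = M * (n + 1) := ⟨_, rfl⟩
  obtain ⟨N2, hN2⟩ : ∃ N2, N2 = M * ((n + 1) * (n + 1)) := ⟨_, rfl⟩
  obtain ⟨N3, hN3⟩ : ∃ N3, N3 = M * ((n + 1) * ((n + 1) * (n + 1))) := ⟨_, rfl⟩
  have g1 : M ≤ N1 := by rw [hN1]; exact Nat.le_mul_of_pos_right _ (by omega)
  have g1' : n + 1 ≤ N1 := by rw [hN1]; exact Nat.le_mul_of_pos_left _ (by omega)
  have g2 : N1 ≤ N2 := by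
    rw [hN1, hN2]; exact Nat.mul_le_mul_left _ (Nat.le_mul_of_pos_left _ (by omega))
  have g3 : N2 ≤ N3 := by
    rw [hN2, hN3]; exact Nat.mul_le_mul_left _ (Nat.le_mul_of_pos_left _ (by omega))
  rw [← hN3]
  -- the size of the tables
  refine (Tr.seq (T := 3) (T' := 2900 * N3) (Tr.asg (by simp only [Ex.ok]; omega)
    (by simp [Ex.cost]) ?_)).mono (by omega) (fun _ h => h)
  simp only [Ex.ev]
  refine (Tr.seq (T := 14 * (n + 1)) (T' := 2800 * N3) ?_).mono (by omega) (fun _ h => h)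
  refine Tr.loop (fun i s' => s'.mem = s.mem ∧ s'.reg 2 = 2 ^ i) 7 (N := n) ?_ (by omega)
    (by omega) (by omega) ?_ ?_ ?_
  · rw [St.set_reg_ne _ _ (by norm_num), h0]
  · refine ⟨rfl, ?_⟩
    rw [St.set_reg_ne _ _ (by norm_num), St.set_reg_self, pow_zero]
  · rintro i hi s1 ⟨hm, h2⟩ _ _
    have hpw : 2 ^ (i + 1) ≤ M := by rw [hM]; exact Nat.pow_le_pow_right (by norm_num) (by omega)
    have hpw2 : 2 ^ i + 2 ^ i = 2 ^ (i + 1) := by rw [pow_succ]; ring
    apply Tr.asg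
    · simp only [Ex.ok, Ex.ev, h2]; omega
    · simp [Ex.cost]
    · refine ⟨hm, ?_⟩
      rw [St.set_reg_ne _ _ (by norm_num), St.set_reg_self]
      simp only [Ex.ev, h2]; exact hpw2
  rintro s1 ⟨hm1, h21⟩ _ hfr1
  rw [← hM] at h21
  have r01 : s1.reg 0 = n := by
    rw [hfr1 0 (by norm_num) (by decide), St.set_reg_ne _ _ (by norm_num), h0]
  have r11 : s1.reg 1 = k := by
    rw [hfr1 1 (by norm_num) (by decide), St.set_reg_ne _ _ (by norm_num), h1]
  refine (Tr.seq (T := 6) (T' := 2700 * N3) (Tr.asg ?_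
    (by simp [Ex.cost]) ?_)).mono (by omega) (fun _ h => h)
  · simp only [Ex.ok, Ex.ev, r01]; omega
  simp only [Ex.ev, r01]
  have E2 : Env n M (s1.set 3 (n + 1)) :=
    ⟨by rw [St.set_reg_ne _ _ (by norm_num), r01], by rw [St.set_reg_ne _ _ (by norm_num), h21]⟩
  -- the bit table
  refine (Tr.seq (T := 80 * ((n + 1) * M)) (T' := 2600 * N3) (tr_B P E2 ?_)).mono ?_
    (fun _ h => h)
  swap
  · rw [Nat.mul_comm (n + 1) M, ← hN1]; omega
  intro s3 hK3 hB3 hr3
  have E3 : Env n M s3 := ⟨by rw [hr3 0 (by decide), E2.r0], by rw [hr3 2 (by decide), E2.r2]⟩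
  have x3 : s3.reg 3 = n + 1 := by rw [hr3 3 (by decide), St.set_reg_self]
  have y3 : s3.reg 1 = k := by
    rw [hr3 1 (by decide), St.set_reg_ne _ _ (by norm_num), r11]
  have I3 : Inp n M (adjF G) lab s3 := by
    have I2 : Inp n M (adjF G) lab (s1.set 3 (n + 1)) :=
      ⟨fun u hu v hv => by rw [St.set_mem, hm1]; exact hI.a u hu v hv,
       fun v hv => by rw [St.set_mem, hm1]; exact hI.l v hv⟩
    exact I2.keep hM hK3 (fun q hq => hq.1)
  -- cardinalities
  refine (Tr.seq (T := 70 * (M * (n + 1))) (T' := 2500 * N3) (tr_P P E3 hB3 ?_)).mono ?_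
    (fun _ h => h)
  swap
  · rw [← hN1]; omega
  intro s4 hK4 hP4 hr4
  have E4 : Env n M s4 := ⟨by rw [hr4 0 (by decide), E3.r0], by rw [hr4 2 (by decide), E3.r2]⟩
  have x4 : s4.reg 3 = n + 1 := by rw [hr4 3 (by decide), x3]
  have y4 : s4.reg 1 = k := by rw [hr4 1 (by decide), y3]
  have I4 : Inp n M (adjF G) lab s4 := I3.keep hM hK4 (by rintro q rfl; omega)
  have hB4 : HasB n M s4 := hB3.keep hK4 (by rintro q rfl; omega)
  -- connected sets
  refine (Tr.seq (T := 300 * (M * ((n + 1) * (n + 1)))) (T' := 2200 * N3)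
    (tr_C P E4 hB4 I4 ?_)).mono ?_ (fun _ h => h)
  swap
  · rw [← hN2]; omega
  intro s5 hK5 hC5 hr5
  have E5 : Env n M s5 := ⟨by rw [hr5 0 (by decide), E4.r0], by rw [hr5 2 (by decide), E4.r2]⟩
  have x5 : s5.reg 3 = n + 1 := by rw [hr5 3 (by decide), x4]
  have y5 : s5.reg 1 = k := by rw [hr5 1 (by decide), y4]
  have I5 : Inp n M (adjF G) lab s5 := I4.keep hM hK5 (by rintro q rfl; omega)
  have hB5 : HasB n M s5 := hB4.keep hK5 (by rintro q rfl; omega)
  have hP5 : HasP n M s5 := fun X hX => by rw [hK5.bl hX (by omega)]; exact hP4 X hX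
  -- the first table
  refine (Tr.seq (T := 30 * M) (T' := 2100 * N3) (tr_G P E5 ?_)).mono (by omega) (fun _ h => h)
  intro s6 hK6 hG6 hr6
  have E6 : Env n M s6 := ⟨by rw [hr6 0 (by decide), E5.r0], by rw [hr6 2 (by decide), E5.r2]⟩
  have x6 : s6.reg 3 = n + 1 := by rw [hr6 3 (by decide), x5]
  have y6 : s6.reg 1 = k := by rw [hr6 1 (by decide), y5]
  have I6 : Inp n M (adjF G) lab s6 := I5.keep hM hK6 (by rintro q rfl; omega)
  have hB6 : HasB n M s6 := hB5.keep hK6 (by rintro q rfl; omega)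
  have hP6 : HasP n M s6 := fun X hX => by rw [hK6.bl hX (by omega)]; exact hP5 X hX
  have hC6 : HasT n M (n + 3) (cn G) s6 := hC5.keep hK6 (by omega)
  -- the stages
  refine (Tr.seq (T := 1500 * N3) (T' := 600 * N3) ?_).mono (by omega) (fun _ h => h)
  have hstN : (n + 1) * (M * (n + 1)) = N2 := by rw [hN2]; ring
  refine Tr.loop (fun i s' => Keep M (fun q => n + 4 ≤ q) s6 s' ∧
    HasT n M (n + 4) (pk G lab i) s') (1400 * ((n + 1) * (M * (n + 1)))) (N := k) y6 (by omega)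
    (by omega) ?_ ?_ ?_ ?_
  · rw [hstN]
    have h4 : (n + 1) * N2 = N3 := by rw [hN2, hN3]; ring
    have : k * (1400 * N2 + 4) ≤ (n + 1) * (1404 * N2) := by
      apply Nat.mul_le_mul (by omega); omega
    have h5 : (n + 1) * (1404 * N2) = 1404 * N3 := by rw [← h4]; ring
    omega
  · refine ⟨Keep.of_mem rfl, ?_⟩
    intro X hX
    have h := hG6 X hX
    have hp : pk G lab 0 (dec n X) = true := pk_true.2 (pack_zero _ _ _)
    rw [hp]
    exact h
  · rintro i hi s7 ⟨hK7, hT7⟩ r14 hr7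
    have E7 : Env n M s7 := ⟨by rw [hr7 0 (by norm_num) (by decide), E6.r0],
      by rw [hr7 2 (by norm_num) (by decide), E6.r2]⟩
    have x7 : s7.reg 3 = n + 1 := by rw [hr7 3 (by norm_num) (by decide), x6]
    refine tr_stage P E7 x7 (hB6.keep hK7 (fun q hq => by omega))
      (fun X hX => by rw [hK7.bl hX (by omega)]; exact hP6 X hX)
      (I6.keep hM hK7 (fun q hq => by omega)) (hC6.keep hK7 (by omega)) hT7 r14 (by omega) hlab ?_
    intro s8 hK8 hT8 _
    refine ⟨?_, ?_⟩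
    · exact Keep.trans (s' := s8) (hK7.trans hK8) (Keep.of_mem rfl)
    · rw [cvb_pk] at hT8
      exact hT8
  · rintro s7 ⟨hK7, hT7⟩ _ hr7
    have E7 : Env n M s7 := ⟨by rw [hr7 0 (by norm_num) (by decide), E6.r0],
      by rw [hr7 2 (by norm_num) (by decide), E6.r2]⟩
    have hl := Bool.toNat_le (pk G lab k Finset.univ)
    have hev : (rd qG (.sub (.r 2) (.c 1))).ev s7 = (pk G lab k Finset.univ).toNat := by
      rw [rd_ev E7.r2]; simp only [qG, Ex.ev, E7.r0, E7.r2]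
      have := hT7 (M - 1) (by omega)
      have hd : dec n (M - 1) = Finset.univ := by rw [hM]; exact dec_full n
      rw [hd] at this
      exact this
    have hok : (rd qG (.sub (.r 2) (.c 1))).ok w s7 := by
      apply rd_ok E7.r2 hMw b1
      · simp only [qG, Ex.ok, Ex.ev, E7.r0]; omega
      · simp only [Ex.ok, E7.r2]; omega
      · simp only [qG, Ex.ev, E7.r0]; omega
      · simp only [Ex.ev, E7.r2]; omega
      · rw [← rd_ev E7.r2, hev]; omega
    apply Tr.asg hok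
    · simp only [Ex.cost, rd, cell, qG]; omega
    · rw [St.set_reg_self, hev]

theorem par_of (n : ℕ) : Par (8 * (n + 1)) n (2 ^ n) := by
  obtain ⟨A, hA⟩ : ∃ A, A = 2 ^ n := ⟨_, rfl⟩
  have h1 : n + 1 ≤ A := by rw [hA]; exact Nat.lt_two_pow_self
  have h2 : 2 ^ (8 * (n + 1)) = 256 * (A * A * (A * A) * (A * A * (A * A))) := by
    rw [hA]
    rw [show 8 * (n + 1) = n + n + (n + n) + (n + n + (n + n)) + 8 by ring]
    simp only [pow_add]
    ring
  have hA1 : 1 ≤ A := by omega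
  have a2 : A ≤ A * A := by nlinarith
  have a3 : A * A ≤ A * A * (A * A) := by nlinarith
  have a4 : A * A * (A * A) ≤ A * A * (A * A) * (A * A * (A * A)) := by nlinarith
  have a5 : A * A * A ≤ A * A * (A * A) := by nlinarith
  constructor
  · rfl
  · rw [← hA, h2]; nlinarith
  · rw [← hA, h2]
    have : (n + 2) * (A * A) ≤ (2 * A) * (A * A) := Nat.mul_le_mul_right _ (by omega)
    nlinarith
  · rw [h2]; nlinarith
  · rw [← hA, h2]; nlinarith

end Pool.Agent.TH687.DCS
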