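import Mathlib

/-!
Ranked zeta and Möbius transforms on subsets coded by bits.
-/

set_option autoImplicit false

namespace Pool.Agent.TH687.DCS

open Finset

/-- The set of the positions of the bits of `X`. -/
def dec (n X : ℕ) : Finset (Fin n) := univ.filter (fun v => X.testBit v = true)

theorem mem_dec {n X : ℕ} {v : Fin n} : v ∈ dec n X ↔ X.testBit v = true := by simp [dec]

theorem le_of_testBit {v : ℕ} : ∀ {X : ℕ}, X.testBit v = true → 2 ^ v ≤ X := by
  intro X h
  exact Nat.ge_two_pow_of_testBit h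

theorem testBit_sub_self (v : ℕ) : ∀ {X : ℕ}, X.testBit v = true → ∀ i : ℕ,
    (X - 2 ^ v).testBit i = (decide (i ≠ v) && X.testBit i) := by
  induction v with
  | zero =>
    intro X h i
    rw [Nat.testBit_zero, decide_eq_true_eq] at h
    cases i with
    | zero =>
      simp only [Nat.testBit_zero, pow_zero, ne_eq, not_true_eq_false, decide_false,
        Bool.false_and, decide_eq_false_iff_not]
      omega
    | succ i =>
      rw [Nat.testBit_succ, Nat.testBit_succ]
      have : (X - 2 ^ 0) / 2 = X / 2 := by simp only [pow_zero]; omega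
      rw [this]; simp
  | succ v ih =>
    intro X h i
    rw [Nat.testBit_succ] at h
    have hle := le_of_testBit h
    have h2 : (X - 2 ^ (v + 1)) / 2 = X / 2 - 2 ^ v := by
      rw [pow_succ]; omega
    cases i with
    | zero =>
      simp only [Nat.testBit_zero]
      have : (X - 2 ^ (v + 1)) % 2 = X % 2 := by rw [pow_succ]; omega
      rw [this]; simp
    | succ i =>
      rw [Nat.testBit_succ, Nat.testBit_succ, h2, ih h i]
      congr 1
      simp

theorem dec_sub {n X : ℕ} {v : Fin n} (h : X.testBit v = true) :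
    dec n (X - 2 ^ (v : ℕ)) = (dec n X).erase v := by
  ext i
  rw [mem_erase, mem_dec, mem_dec, testBit_sub_self v h i]
  simp [Fin.ext_iff]

theorem testBit_rec {v X : ℕ} (h : 2 ^ (v + 1) ≤ X) :
    (X - 2 ^ (v + 1)).testBit v = X.testBit v := by
  rw [Nat.testBit_eq_decide_div_mod_eq, Nat.testBit_eq_decide_div_mod_eq]
  have h1 : X = (X - 2 ^ (v + 1)) + 2 ^ v * 2 := by rw [← pow_succ]; omega
  have h2 : X / 2 ^ v = (X - 2 ^ (v + 1)) / 2 ^ v + 2 := by
    conv_lhs => rw [h1]
    rw [Nat.add_mul_div_left _ _ (by positivity)]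
  rw [h2]
  congr 1
  simp

theorem testBit_lo {v X : ℕ} (h : X < 2 ^ v) : X.testBit v = false :=
  Nat.testBit_lt_two_pow h

theorem testBit_mid {v X : ℕ} (h : ¬ X < 2 ^ v) (h' : X < 2 ^ (v + 1)) : X.testBit v = true := by
  rw [Nat.testBit_eq_decide_div_mod_eq]
  have : X / 2 ^ v = 1 := by
    apply Nat.div_eq_of_lt_le
    · omega
    · rw [pow_succ] at h'; omega
  rw [this]; simp

theorem dec_inj {n X Y : ℕ} (hX : X < 2 ^ n) (hY : Y < 2 ^ n) (h : dec n X = dec n Y) : X = Y := by
  apply Nat.eq_of_testBit_eq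
  intro i
  by_cases hi : i < n
  · have := Finset.ext_iff.1 h ⟨i, hi⟩
    rw [mem_dec, mem_dec] at this
    simp only at this
    exact Bool.eq_iff_iff.2 this
  · rw [Nat.testBit_lt_two_pow (lt_of_lt_of_le hX (Nat.pow_le_pow_right (by norm_num) (by omega))),
      Nat.testBit_lt_two_pow (lt_of_lt_of_le hY (Nat.pow_le_pow_right (by norm_num) (by omega)))]

theorem dec_surj {n : ℕ} (S : Finset (Fin n)) : ∃ X < 2 ^ n, dec n X = S := by
  classical
  have hinj : Function.Injective (fun X : Fin (2 ^ n) => dec n X) := by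
    intro X Y h
    exact Fin.ext (dec_inj X.2 Y.2 h)
  have hb : Function.Bijective (fun X : Fin (2 ^ n) => dec n X) := by
    rw [Fintype.bijective_iff_injective_and_card]
    exact ⟨hinj, by simp⟩
  obtain ⟨X, hX⟩ := hb.2 S
  exact ⟨X, X.2, hX⟩

theorem dec_full (n : ℕ) : dec n (2 ^ n - 1) = univ := by
  ext v
  rw [mem_dec, Nat.testBit_two_pow_sub_one]
  simp

theorem dec_zero (n : ℕ) : dec n 0 = ∅ := by
  ext v
  rw [mem_dec]; simp

theorem card_dec (n X : ℕ) : (dec n X).card = ∑ v : Fin n, (if X.testBit v = true then 1 else 0) := by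
  rw [dec, card_filter]

variable {n : ℕ}

/-- Partial ranked zeta transform. -/
def ZA (g : Finset (Fin n) → Bool) (j v : ℕ) (S : Finset (Fin n)) : ℕ :=
  (univ.filter (fun A : Finset (Fin n) => g A = true ∧ A.card = j ∧ A ⊆ S ∧
    ∀ i : Fin n, v ≤ i → i ∈ S → i ∈ A)).card

theorem ZA_zero (g : Finset (Fin n) → Bool) (j : ℕ) (S : Finset (Fin n)) :
    ZA g j 0 S = if S.card = j ∧ g S = true then 1 else 0 := by
  unfold ZA
  have : (univ.filter (fun A : Finset (Fin n) => g A = true ∧ A.card = j ∧ A ⊆ S ∧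
    ∀ i : Fin n, 0 ≤ (i : ℕ) → i ∈ S → i ∈ A)) = if S.card = j ∧ g S = true then {S} else ∅ := by
    ext A
    simp only [mem_filter, mem_univ, true_and, Nat.zero_le, forall_const]
    split_ifs with h
    · rw [mem_singleton]
      constructor
      · rintro ⟨_, _, h1, h2⟩
        exact subset_antisymm h1 (fun i hi => h2 i hi)
      · rintro rfl
        exact ⟨h.2, h.1, subset_rfl, fun i hi => hi⟩
    · simp only [notMem_empty, iff_false]
      rintro ⟨h0, h00, h1, h2⟩
      have : A = S := subset_antisymm h1 (fun i hi => h2 i hi)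
      subst this
      exact h ⟨h00, h0⟩
  rw [this]
  split_ifs <;> simp

theorem ZA_succ_mem (g : Finset (Fin n) → Bool) (j : ℕ) (v : Fin n) (S : Finset (Fin n))
    (hv : v ∈ S) : ZA g j (v + 1) S = ZA g j v S + ZA g j v (S.erase v) := by
  classical
  unfold ZA
  rw [← card_union_of_disjoint]
  · congr 1
    ext A
    simp only [mem_filter, mem_univ, true_and, mem_union]
    constructor
    · rintro ⟨h0, h1, h2, h3⟩
      by_cases hA : v ∈ A
      · left
        refine ⟨h0, h1, h2, fun i hi hiS => ?_⟩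
        by_cases e : i = v
        · subst e; exact hA
        · exact h3 i (by have : (i : ℕ) ≠ v := fun h => e (Fin.ext h); omega) hiS
      · right
        refine ⟨h0, h1, fun i hi => ?_, fun i hi hiS => ?_⟩
        · rw [mem_erase]; exact ⟨fun e => hA (e ▸ hi), h2 hi⟩
        · rw [mem_erase] at hiS
          exact h3 i (by have : (i : ℕ) ≠ v := fun h => hiS.1 (Fin.ext h); omega) hiS.2
    · rintro (⟨h0, h1, h2, h3⟩ | ⟨h0, h1, h2, h3⟩)
      · exact ⟨h0, h1, h2, fun i hi hiS => h3 i (by omega) hiS⟩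
      · refine ⟨h0, h1, h2.trans (erase_subset _ _), fun i hi hiS => h3 i (by omega) ?_⟩
        rw [mem_erase]
        refine ⟨fun e => ?_, hiS⟩
        subst e; omega
  · rw [disjoint_left]
    rintro A h h'
    simp only [mem_filter, mem_univ, true_and] at h h'
    have h1 := h.2.2.2 v le_rfl hv
    have h2 := h'.2.2.1 h1
    simp at h2

theorem ZA_succ_notMem (g : Finset (Fin n) → Bool) (j : ℕ) (v : Fin n) (S : Finset (Fin n))
    (hv : v ∉ S) : ZA g j (v + 1) S = ZA g j v S := by
  unfold ZA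
  congr 1
  ext A
  simp only [mem_filter, mem_univ, true_and]
  constructor
  · rintro ⟨h0, h1, h2, h3⟩
    refine ⟨h0, h1, h2, fun i hi hiS => h3 i ?_ hiS⟩
    have : (i : ℕ) ≠ v := fun h => hv (by have := Fin.ext h; rwa [this] at hiS)
    omega
  · rintro ⟨h0, h1, h2, h3⟩
    exact ⟨h0, h1, h2, fun i hi hiS => h3 i (by omega) hiS⟩

theorem ZA_le (g : Finset (Fin n) → Bool) (j v : ℕ) (S : Finset (Fin n)) : ZA g j v S ≤ 2 ^ n := by
  unfold ZA
  refine (card_filter_le _ _).trans ?_
  simp

/-- Partial Möbius transform of the ranked covering product. -/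
def HB (g f : Finset (Fin n) → Bool) (r v : ℕ) (S : Finset (Fin n)) : ℕ :=
  (univ.filter (fun p : Finset (Fin n) × Finset (Fin n) => g p.1 = true ∧ f p.2 = true ∧
    p.1.card + p.2.card = r ∧ p.1 ⊆ S ∧ p.2 ⊆ S ∧
    ∀ i : Fin n, (i : ℕ) < v → i ∈ S → i ∈ p.1 ∨ i ∈ p.2)).card

theorem HB_zero (g f : Finset (Fin n) → Bool) (r : ℕ) (S : Finset (Fin n)) :
    HB g f r 0 S = ∑ j ∈ range (r + 1), ZA g j n S * ZA f (r - j) n S := by
  classical
  unfold HB ZA
  have hfib := card_eq_sum_card_fiberwise (s := (univ.filter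
    (fun p : Finset (Fin n) × Finset (Fin n) => g p.1 = true ∧ f p.2 = true ∧
    p.1.card + p.2.card = r ∧ p.1 ⊆ S ∧ p.2 ⊆ S ∧
    ∀ i : Fin n, (i : ℕ) < 0 → i ∈ S → i ∈ p.1 ∨ i ∈ p.2))) (f := fun p => p.1.card)
    (t := range (r + 1)) (by
      intro p hp
      simp only [coe_filter, mem_univ, true_and, Set.mem_ofPred_eq] at hp
      simp only [coe_range, Set.mem_Iio]
      omega)
  rw [hfib]
  apply sum_congr rfl
  intro j hj
  rw [mem_range] at hj
  rw [← card_product]
  congr 1
  ext p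
  simp only [mem_filter, mem_univ, true_and, mem_product]
  constructor
  · rintro ⟨⟨h0, h1, h2, h3, h4, _⟩, h5⟩
    exact ⟨⟨h0, h5, h3, fun i hi => by omega⟩, ⟨h1, by omega, h4, fun i hi => by omega⟩⟩
  · rintro ⟨⟨h0, h1, h2, _⟩, ⟨h4, h5, h6, _⟩⟩
    exact ⟨⟨h0, h4, by omega, h2, h6, fun i hi => by omega⟩, h1⟩

theorem HB_succ_mem (g f : Finset (Fin n) → Bool) (r : ℕ) (v : Fin n) (S : Finset (Fin n))
    (hv : v ∈ S) : HB g f r v S = HB g f r (v + 1) S + HB g f r v (S.erase v) := by
  classical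
  unfold HB
  rw [← card_union_of_disjoint]
  · congr 1
    ext p
    simp only [mem_filter, mem_univ, true_and, mem_union]
    constructor
    · rintro ⟨h0, h1, h2, h3, h4, h5⟩
      by_cases hA : v ∈ p.1 ∨ v ∈ p.2
      · left
        refine ⟨h0, h1, h2, h3, h4, fun i hi hiS => ?_⟩
        by_cases e : i = v
        · subst e; exact hA
        · exact h5 i (by have : (i : ℕ) ≠ v := fun h => e (Fin.ext h); omega) hiS
      · right
        rw [not_or] at hA
        refine ⟨h0, h1, h2, fun i hi => ?_, fun i hi => ?_, fun i hi hiS => ?_⟩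
        · rw [mem_erase]; exact ⟨fun e => hA.1 (e ▸ hi), h3 hi⟩
        · rw [mem_erase]; exact ⟨fun e => hA.2 (e ▸ hi), h4 hi⟩
        · rw [mem_erase] at hiS
          exact h5 i hi hiS.2
    · rintro (⟨h0, h1, h2, h3, h4, h5⟩ | ⟨h0, h1, h2, h3, h4, h5⟩)
      · exact ⟨h0, h1, h2, h3, h4, fun i hi hiS => h5 i (by omega) hiS⟩
      · refine ⟨h0, h1, h2, h3.trans (erase_subset _ _), h4.trans (erase_subset _ _),
          fun i hi hiS => h5 i hi ?_⟩
        rw [mem_erase]
        refine ⟨fun e => ?_, hiS⟩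
        subst e; omega
  · rw [disjoint_left]
    rintro p h h'
    simp only [mem_filter, mem_univ, true_and] at h h'
    rcases h.2.2.2.2.2 v (by omega) hv with h1 | h1
    · have h2 := h'.2.2.2.1 h1
      simp at h2
    · have h2 := h'.2.2.2.2.1 h1
      simp at h2

theorem HB_succ_notMem (g f : Finset (Fin n) → Bool) (r : ℕ) (v : Fin n) (S : Finset (Fin n))
    (hv : v ∉ S) : HB g f r (v + 1) S = HB g f r v S := by
  unfold HB
  congr 1
  ext p
  simp only [mem_filter, mem_univ, true_and]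
  constructor
  · rintro ⟨h0, h1, h2, h3, h4, h5⟩
    exact ⟨h0, h1, h2, h3, h4, fun i hi hiS => h5 i (by omega) hiS⟩
  · rintro ⟨h0, h1, h2, h3, h4, h5⟩
    refine ⟨h0, h1, h2, h3, h4, fun i hi hiS => h5 i ?_ hiS⟩
    have : (i : ℕ) ≠ v := fun h => hv (by have := Fin.ext h; rwa [this] at hiS)
    omega

theorem HB_le (g f : Finset (Fin n) → Bool) (r v : ℕ) (S : Finset (Fin n)) :
    HB g f r v S ≤ 2 ^ n * 2 ^ n := by
  unfold HB
  refine (card_filter_le _ _).trans ?_
  simp

/-- The subset convolution of two set families. -/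
def Conv (g f : Finset (Fin n) → Bool) (S : Finset (Fin n)) : Prop :=
  ∃ A B : Finset (Fin n), g A = true ∧ f B = true ∧ Disjoint A B ∧ A ∪ B = S

theorem HB_pos (g f : Finset (Fin n) → Bool) (S : Finset (Fin n)) :
    0 < HB g f S.card n S ↔ Conv g f S := by
  classical
  unfold HB
  rw [card_pos]
  constructor
  · rintro ⟨⟨A, B⟩, hp⟩
    simp only [mem_filter, mem_univ, true_and] at hp
    obtain ⟨h0, h1, h2, h3, h4, h5⟩ := hp
    have hU : A ∪ B = S := by
      apply subset_antisymm (union_subset h3 h4)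
      intro i hi
      rw [mem_union]
      exact h5 i i.2 hi
    refine ⟨A, B, h0, h1, ?_, hU⟩
    rw [← card_union_eq_card_add_card, hU, h2]
  · rintro ⟨A, B, h0, h1, h2, h3⟩
    refine ⟨(A, B), ?_⟩
    simp only [mem_filter, mem_univ, true_and]
    refine ⟨h0, h1, ?_, ?_, ?_, ?_⟩
    · rw [← h3, card_union_of_disjoint h2]
    · rw [← h3]; exact subset_union_left
    · rw [← h3]; exact subset_union_right
    · intro i _ hi
      rw [← h3, mem_union] at hi
      exact hi

end Pool.Agent.TH687.DCS
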