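import Pool.Agent.TH687.DCS.Fill
import Pool.Agent.TH687.DCS.Math
import Pool.Agent.TH687.DCS.Graph

/-!
The program, part 1: tables of bits, cardinalities and connected sets.
-/

set_option autoImplicit false

namespace Pool.Agent.TH687.DCS

open Pool.Agent.H588R2 Pool.Agent.TH687.HL

def qB (v : Ex) : Ex := .add (.c 2) v
def qP : Ex := .add (.r 0) (.c 2)
def qC : Ex := .add (.r 0) (.c 3)
def qG : Ex := .add (.r 0) (.c 4)
def qF : Ex := .add (.r 0) (.c 5)
def qH : Ex := .add (.r 0) (.c 6)
def qZ (j : Ex) : Ex := .add (.add (.r 0) (.c 7)) j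
def qY (j : Ex) : Ex := .add (.add (.add (.r 0) (.r 0)) (.c 8)) j

/-- The word length is large enough. -/
structure Par (w n M : ℕ) : Prop where
  hM : M = 2 ^ n
  b1 : (3 * n + 9) * M ≤ 2 ^ w
  b2 : (n + 2) * (M * M) < 2 ^ w
  b3 : 3 * n + 20 < 2 ^ w
  b4 : 4 * M < 2 ^ w

theorem Par.pos {w n M : ℕ} (P : Par w n M) : 1 ≤ M := by
  rw [P.hM]; exact Nat.one_le_two_pow

theorem Par.Mw {w n M : ℕ} (P : Par w n M) : M < 2 ^ w := by have := P.b4; omega

/-- Registers holding the parameters. -/
structure Env (n M : ℕ) (s : St) : Prop where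
  r0 : s.reg 0 = n
  r2 : s.reg 2 = M

/-- The bit table. -/
def HasB (n M : ℕ) (s : St) : Prop :=
  ∀ v < n, ∀ X < M, bl M s (2 + v) X = (X.testBit v).toNat

def codeB : HC := pwLoop (fill
  (.ite (.r 11) (.r 4) (.asg 20 (.c 0))
    (.ite (.r 11) (.add (.r 4) (.r 4)) (.asg 20 (.c 1))
      (.asg 20 (rd (qB (.r 10)) (.sub (.r 11) (.add (.r 4) (.r 4)))))))
  (qB (.r 10)) (.r 20))

theorem tr_B {w n M : ℕ} {s : St} {Q : St → Prop} (P : Par w n M) (E : Env n M s)
    (hQ : ∀ s', Keep M (fun q => 2 ≤ q ∧ q < n + 2) s s' → HasB n M s' →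
      (∀ y, y ∉ codeB.wr → s'.reg y = s.reg y) → Q s') :
    Tr w codeB s (80 * ((n + 1) * M)) Q := by
  have hM := P.hM
  have b1 := P.b1
  have b3 := P.b3
  have b4 := P.b4
  have hpos := P.pos
  have hMw := P.Mw
  refine tr_pw (n := n) (τ := 60 * M) (fun i s' => Keep M (fun q => 2 ≤ q ∧ q < n + 2) s s' ∧
    ∀ v < i, ∀ X < M, bl M s' (2 + v) X = (X.testBit v).toNat) E.r0 (by omega) (by omega)
    (by omega) (by decide) (by decide) ?_ ?_ ?_ ?_ ?_
  · have := bnd (N := n) (N' := n + 1) (A := M) (c1 := 60) (c2 := 11) (c3 := 6) (C := 80)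
      (by omega) (by omega) hpos (by norm_num)
    exact this
  · rintro i s' s'' hm _ ⟨h1, h2⟩
    refine ⟨h1.trans (Keep.of_mem hm), ?_⟩
    intro v hv X hX
    simp only [bl, hm]
    exact h2 v hv X hX
  · exact ⟨Keep.refl _ _ _, fun v hv => by omega⟩
  · rintro v hv s' ⟨hK, hB⟩ r4 r10 hfr
    have r0 : s'.reg 0 = n := by rw [hfr 0 (by norm_num) (by norm_num) (by decide), E.r0]
    have r2 : s'.reg 2 = M := by rw [hfr 2 (by norm_num) (by norm_num) (by decide), E.r2]
    have hpw : 2 ^ (v + 1) ≤ M := by rw [hM]; exact Nat.pow_le_pow_right (by norm_num) (by omega)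
    have hpw2 : 2 ^ v + 2 ^ v = 2 ^ (v + 1) := by rw [pow_succ]; ring
    have hv0 : 0 < 2 ^ v := by positivity
    refine tr_fill (q := 2 + v) (Qm := 3 * n + 9) (τ := 40) (val := fun X => (X.testBit v).toNat)
      r2 hMw b1 (by omega) (by decide) (by decide) (by omega) ?_ ?_ ?_
    · simp only [qB, Ex.cost]; omega
    · intro X hX s1 hfr1 r11 hK1 hlo _
      have r4' : s1.reg 4 = 2 ^ v := by rw [hfr1 4 (by norm_num) (by decide), r4]
      have r10' : s1.reg 10 = v := by rw [hfr1 10 (by norm_num) (by decide), r10]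
      have r2' : s1.reg 2 = M := by rw [hfr1 2 (by norm_num) (by decide), r2]
      have fin : ∀ z, z < 2 ^ w → z = (X.testBit v).toNat →
          (s1.set 20 z).mem = s1.mem ∧ (qB (.r 10)).ok w (s1.set 20 z) ∧
          (qB (.r 10)).ev (s1.set 20 z) = 2 + v ∧ (Ex.r 20).ok w (s1.set 20 z) ∧
          (Ex.r 20).ev (s1.set 20 z) = (X.testBit v).toNat := by
        intro z hz hz'
        have : (s1.set 20 z).reg 10 = v := by rw [St.set_reg_ne _ _ (by norm_num), r10']
        simp only [qB, Ex.ok, Ex.ev, this, St.set_reg_self, St.set_mem]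
        refine ⟨trivial, ?_, trivial, hz, hz'⟩
        omega
      apply Tr.ite (T := 32)
      · simp only [Ex.ok, r11]; omega
      · simp only [Ex.ok, r4']; omega
      · simp only [Ex.cost]; omega
      · intro hlt
        simp only [Ex.ev, r11, r4'] at hlt
        apply Tr.asg (by simp only [Ex.ok]; omega) (by simp [Ex.cost])
        apply fin
        · simp only [Ex.ev]; omega
        · rw [testBit_lo hlt]; rfl
      · intro hlt
        simp only [Ex.ev, r11, r4'] at hlt
        apply Tr.ite (T := 20)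
        · simp only [Ex.ok, r11]; omega
        · simp only [Ex.ok, Ex.ev, r4']; omega
        · simp only [Ex.cost]; omega
        · intro hlt2
          simp only [Ex.ev, r11, r4'] at hlt2
          apply Tr.asg (by simp only [Ex.ok]; omega) (by simp [Ex.cost])
          apply fin
          · simp only [Ex.ev]; omega
          · rw [testBit_mid hlt (by rw [← hpw2]; exact hlt2)]; rfl
        · intro hlt2
          simp only [Ex.ev, r11, r4'] at hlt2
          have hv' : (rd (qB (.r 10)) (.sub (.r 11) (.add (.r 4) (.r 4)))).ev s1 =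
              (X.testBit v).toNat := by
            rw [rd_ev r2']
            simp only [qB, Ex.ev, r10', r11, r4']
            rw [hlo _ (by omega), hpw2, testBit_rec (by omega)]
          have hle1 : (X.testBit v).toNat ≤ 1 := Bool.toNat_le _
          have hok : (rd (qB (.r 10)) (.sub (.r 11) (.add (.r 4) (.r 4)))).ok w s1 := by
            apply rd_ok r2' hMw b1
            · simp only [qB, Ex.ok, Ex.ev, r10']; omega
            · simp only [Ex.ok, Ex.ev, r11, r4']; omega
            · simp only [qB, Ex.ev, r10']; omega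
            · simp only [Ex.ev, r11, r4']; omega
            · rw [← rd_ev r2', hv']; omega
          apply Tr.asg hok (by simp [Ex.cost, rd, cell, qB])
          rw [hv']
          apply fin _ (by omega) rfl
    · intro s1 hK1 hval _
      refine ⟨hK.trans (hK1.mono (by rintro q rfl; omega)), ?_⟩
      intro u hu X hX
      by_cases e : u = v
      · subst e; exact hval X hX
      · rw [hK1.bl hX (by omega)]
        exact hB u (by omega) X hX
  · rintro s' ⟨hK, hB⟩ hfr
    apply hQ s' hK hB
    intro y hy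
    apply hfr
    · rintro rfl; exact hy (by decide)
    · rintro rfl; exact hy (by decide)
    · intro h; apply hy
      simp only [codeB, pwLoop, HC.wr, List.mem_append, List.mem_cons] at h ⊢
      tauto

/-- The table of cardinalities. -/
def HasP (n M : ℕ) (s : St) : Prop :=
  ∀ X < M, bl M s (n + 2) X = (dec n X).card

def codeP : HC := fill
  (.seq (.asg 20 (.c 0)) (.loop 10 0 (.asg 20 (.add (.r 20) (rd (qB (.r 10)) (.r 11))))))
  qP (.r 20)

theorem HasB.keep {n M : ℕ} {s s' : St} {P : ℕ → Prop} (h : HasB n M s) (hK : Keep M P s s')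
    (hP : ∀ q, P q → n + 2 ≤ q) : HasB n M s' := by
  intro v hv X hX
  rw [hK.bl hX (fun h' => by have := hP _ h'; omega)]
  exact h v hv X hX

theorem card_dec' (n X : ℕ) : (dec n X).card = ∑ v ∈ Finset.range n, (X.testBit v).toNat := by
  rw [card_dec, Finset.sum_range]
  apply Finset.sum_congr rfl
  intro v _
  cases X.testBit v <;> rfl

theorem tr_P {w n M : ℕ} {s : St} {Q : St → Prop} (P : Par w n M) (E : Env n M s)
    (hB : HasB n M s)
    (hQ : ∀ s', Keep M (fun q => q = n + 2) s s' → HasP n M s' →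
      (∀ y, y ∉ codeP.wr → s'.reg y = s.reg y) → Q s') :
    Tr w codeP s (70 * (M * (n + 1))) Q := by
  have hM := P.hM
  have b1 := P.b1
  have b3 := P.b3
  have b4 := P.b4
  have hpos := P.pos
  have hMw := P.Mw
  refine tr_fill (q := n + 2) (Qm := 3 * n + 9) (τ := 20 * (n + 1) + 7)
    (val := fun X => (dec n X).card) E.r2 hMw b1 (by omega) (by decide) (by decide) (by omega)
    ?_ ?_ ?_
  · have := bnd (N := M) (N' := M) (A := n + 1) (c1 := 20) (c2 := 24) (c3 := 3) (C := 70)
      (by omega) (by omega) (by omega) (by norm_num)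
    refine le_trans (le_of_eq ?_) this
    simp only [qP, Ex.cost]
  · intro X hX s1 hfr1 r11 hK1 hlo _
    have r0 : s1.reg 0 = n := by rw [hfr1 0 (by norm_num) (by decide), E.r0]
    have r2 : s1.reg 2 = M := by rw [hfr1 2 (by norm_num) (by decide), E.r2]
    have hB1 : HasB n M s1 := hB.keep hK1 (by rintro q rfl; omega)
    refine (Tr.seq (T := 3) (T' := 20 * (n + 1) + 4) (Tr.asg (by simp only [Ex.ok]; omega) (by simp [Ex.cost])
      ?_)).mono (by omega) (fun _ h => h)
    simp only [Ex.ev]
    refine Tr.loop (fun v s' => s'.mem = s1.mem ∧ s'.reg 20 =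
      ∑ u ∈ Finset.range v, (X.testBit u).toNat) 16 (N := n) ?_ (by omega) (by omega) ?_ ?_ ?_ ?_
    · rw [St.set_reg_ne _ _ (by norm_num), r0]
    · ring_nf; omega
    · refine ⟨rfl, ?_⟩
      rw [St.set_reg_ne _ _ (by norm_num)]; simp
    · rintro v hv s2 ⟨hm, h20⟩ r10 hfr2
      have r2' : s2.reg 2 = M := by
        rw [hfr2 2 (by norm_num) (by decide), St.set_reg_ne _ _ (by norm_num), r2]
      have r11' : s2.reg 11 = X := by
        rw [hfr2 11 (by norm_num) (by decide), St.set_reg_ne _ _ (by norm_num), r11]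
      have hbv : bl M s2 (2 + v) X = (X.testBit v).toNat := by
        simp only [bl, hm]; exact hB1 v hv X hX
      have hle1 : (X.testBit v).toNat ≤ 1 := Bool.toNat_le _
      have hev : (rd (qB (.r 10)) (.r 11)).ev s2 = (X.testBit v).toNat := by
        rw [rd_ev r2']; simp only [qB, Ex.ev, r10, r11']; exact hbv
      have hok : (rd (qB (.r 10)) (.r 11)).ok w s2 := by
        apply rd_ok r2' hMw b1
        · simp only [qB, Ex.ok, Ex.ev, r10]; omega
        · simp only [Ex.ok, r11']; omega
        · simp only [qB, Ex.ev, r10]; omega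
        · simp only [Ex.ev, r11']; exact hX
        · rw [← rd_ev r2', hev]; omega
      have hsum : ∑ u ∈ Finset.range v, (X.testBit u).toNat ≤ v := by
        calc ∑ u ∈ Finset.range v, (X.testBit u).toNat ≤ ∑ u ∈ Finset.range v, 1 :=
              Finset.sum_le_sum (fun i _ => Bool.toNat_le _)
          _ = v := by simp
      apply Tr.asg
      · refine ⟨?_, hok, ?_⟩
        · simp only [Ex.ok, h20]; omega
        · rw [hev]; simp only [Ex.ev, h20]; omega
      · simp [Ex.cost, rd, cell, qB]
      · refine ⟨?_, ?_⟩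
        · simp only [St.set_mem]; exact hm
        · rw [St.set_reg_ne _ _ (by norm_num), St.set_reg_self, Finset.sum_range_succ, ← h20]
          show (Ex.r 20).ev s2 + _ = _
          rw [hev]; rfl
    · rintro s2 ⟨hm, h20⟩ _ hfr2
      have r0' : s2.reg 0 = n := by
        rw [hfr2 0 (by norm_num) (by decide), St.set_reg_ne _ _ (by norm_num), r0]
      have hcle : (dec n X).card ≤ n := by
        have := Finset.card_le_univ (dec n X); simpa using this
      refine ⟨by rw [hm], ?_, ?_, ?_, ?_⟩
      · simp only [qP, Ex.ok, Ex.ev, r0']; omega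
      · simp only [qP, Ex.ev, r0']
      · simp only [Ex.ok, h20]; rw [← card_dec']; omega
      · show s2.reg 20 = _
        rw [h20, ← card_dec']
  · intro s' hK hval hfr
    apply hQ s' hK hval
    intro y hy
    apply hfr
    · rintro rfl; exact hy (by decide)
    · intro h; apply hy
      simp only [codeP, fill, HC.wr, List.mem_append, List.mem_cons] at h ⊢
      tauto

end Pool.Agent.TH687.DCS
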