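import Pool.Agent.TH687.DCS.Prog1

/-!
The program, part 2: the table of connected sets.
-/

set_option autoImplicit false

namespace Pool.Agent.TH687.DCS

open Pool.Agent.H588R2 Pool.Agent.TH687.HL

/-- The input data in memory: the adjacency matrix, and the labels of the vertices. -/
structure Inp (n M : ℕ) (adj : ℕ → ℕ → ℕ) (lab : ℕ → ℕ) (s : St) : Prop where
  a : ∀ u < n, ∀ v < n, s.mem (u * n + v) = adj u v
  l : ∀ v < n, s.mem (n * n + v) = lab v

theorem Inp.keep {n M : ℕ} {adj : ℕ → ℕ → ℕ} {lab : ℕ → ℕ} {s s' : St} {P : ℕ → Prop}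
    (h : Inp n M adj lab s) (hM : M = 2 ^ n) (hK : Keep M P s s') (hP : ∀ q, P q → 2 ≤ q) :
    Inp n M adj lab s' := by
  have hsz : n * n + n ≤ 2 * M := by
    rw [hM]
    clear * -
    induction n with
    | zero => norm_num
    | succ n ih =>
      rcases Nat.lt_or_ge n 3 with h | h
      · interval_cases n <;> norm_num
      · have h2 : n + 1 < 2 ^ n := by
          clear ih
          induction n, h using Nat.le_induction with
          | base => norm_num
          | succ m hm ih => rw [pow_succ]; omega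
        rw [pow_succ]
        nlinarith
  have key : ∀ a, a < 2 * M → s'.mem a = s.mem a := by
    intro a ha
    apply hK
    intro h'
    have h2 := hP _ h'
    have : a / M < 2 := Nat.div_lt_of_lt_mul (by rw [Nat.mul_comm]; exact ha)
    omega
  constructor
  · intro u hu v hv
    rw [key _ (by nlinarith)]
    exact h.a u hu v hv
  · intro v hv
    rw [key _ (by omega)]
    exact h.l v hv

/-- The table of a Boolean function of sets. -/
def HasT (n M q : ℕ) (f : Finset (Fin n) → Bool) (s : St) : Prop :=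
  ∀ X < M, bl M s q X = (f (dec n X)).toNat

theorem HasT.keep {n M q : ℕ} {f : Finset (Fin n) → Bool} {s s' : St} {P : ℕ → Prop}
    (h : HasT n M q f s) (hK : Keep M P s s') (hP : ¬ P q) : HasT n M q f s' := by
  intro X hX
  rw [hK.bl hX hP]
  exact h X hX

/-- Inner search for a neighbour. -/
def codeU : HC := .loop 12 0 (.ite (.c 0)
  (.mul (rd (qB (.r 12)) (.r 21)) (.ld (.add (.mul (.r 12) (.r 0)) (.r 10))))
  (.asg 20 (.c 1)) .skip)

def codeC : HC := fill
  (.seq (.asg 20 (.c 0)) (pwLoop
    (.ite (.c 0) (rd (qB (.r 10)) (.r 11))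
      (.seq (.asg 21 (.sub (.r 11) (.r 4)))
        (.ite (.r 21) (.c 1) (.asg 20 (.c 1))
          (.ite (.c 0) (rd qC (.r 21)) codeU .skip)))
      .skip)))
  qC (.r 20)

theorem tr_U {w n M Y v : ℕ} {adj : ℕ → ℕ → ℕ} {lab : ℕ → ℕ} {s : St} {Q : St → Prop}
    (P : Par w n M) (E : Env n M s) (hB : HasB n M s) (hI : Inp n M adj lab s)
    (hadj : ∀ u v, adj u v ≤ 1) (h21 : s.reg 21 = Y) (hY : Y < M) (h10 : s.reg 10 = v)
    (hv : v < n) (hle : s.reg 20 ≤ 1)
    (hQ : ∀ s', s'.mem = s.mem → s'.reg 20 ≤ 1 →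
      (s'.reg 20 = 1 ↔ (s.reg 20 = 1 ∨ ∃ u < n, Y.testBit u = true ∧ adj u v = 1)) →
      (∀ y, y ≠ 12 → y ≠ 20 → s'.reg y = s.reg y) → Q s') :
    Tr w codeU s (50 * (n + 1)) Q := by
  have hM := P.hM
  have b1 := P.b1
  have b3 := P.b3
  have b4 := P.b4
  have hpos := P.pos
  have hMw := P.Mw
  have hnn : n * n + n < 2 ^ w := by
    have : n < M := by rw [hM]; exact Nat.lt_two_pow_self
    have b2 := P.b2
    nlinarith
  refine Tr.loop (fun u s' => s'.mem = s.mem ∧ s'.reg 20 ≤ 1 ∧
      (s'.reg 20 = 1 ↔ (s.reg 20 = 1 ∨ ∃ u' < u, Y.testBit u' = true ∧ adj u' v = 1)))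
      35 (N := n) E.r0 (by omega) (by omega) (by omega) ?_ ?_ ?_
  · refine ⟨rfl, ?_, ?_⟩
    · rw [St.set_reg_ne _ _ (by norm_num)]; exact hle
    · rw [St.set_reg_ne _ _ (by norm_num)]
      constructor
      · intro h; exact Or.inl h
      · rintro (h | ⟨u, hu, _⟩)
        · exact h
        · omega
  · rintro u hu s1 ⟨hm, h20, h20'⟩ r12 hfr
    have r0 : s1.reg 0 = n := by rw [hfr 0 (by norm_num) (by decide), E.r0]
    have r2 : s1.reg 2 = M := by rw [hfr 2 (by norm_num) (by decide), E.r2]
    have r10 : s1.reg 10 = v := by rw [hfr 10 (by norm_num) (by decide), h10]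
    have r21 : s1.reg 21 = Y := by rw [hfr 21 (by norm_num) (by decide), h21]
    have hbu : bl M s1 (2 + u) Y = (Y.testBit u).toNat := by
      simp only [bl, hm]; exact hB u hu Y hY
    have hle1 : (Y.testBit u).toNat ≤ 1 := Bool.toNat_le _
    have hev : (rd (qB (.r 12)) (.r 21)).ev s1 = (Y.testBit u).toNat := by
      rw [rd_ev r2]; simp only [qB, Ex.ev, r12, r21]; exact hbu
    have hok : (rd (qB (.r 12)) (.r 21)).ok w s1 := by
      apply rd_ok r2 hMw b1
      · simp only [qB, Ex.ok, Ex.ev, r12]; omega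
      · simp only [Ex.ok, r21]; omega
      · simp only [qB, Ex.ev, r12]; omega
      · simp only [Ex.ev, r21]; exact hY
      · rw [← rd_ev r2, hev]; omega
    have haddr : u * n + v < n * n + n := by nlinarith
    have hmul : u * n < n * n + n := by omega
    have ha1 : s1.mem (u * n + v) = adj u v := by rw [hm]; exact hI.a u hu v hv
    have hal := hadj u v
    have hev2 : (Ex.ld (.add (.mul (.r 12) (.r 0)) (.r 10))).ev s1 = adj u v := by
      simp only [Ex.ev, r12, r0, r10]; exact ha1
    have hok2 : (Ex.ld (.add (.mul (.r 12) (.r 0)) (.r 10))).ok w s1 := by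
      simp only [Ex.ok, Ex.ev, r12, r0, r10, ha1]
      omega
    have hprod : (Y.testBit u).toNat * adj u v ≤ 1 := by nlinarith
    apply Tr.ite (T := 3)
    · simp only [Ex.ok]; omega
    · refine ⟨hok, hok2, ?_⟩
      rw [hev, hev2]; omega
    · simp only [Ex.cost, rd, cell, qB]; omega
    · intro hlt
      have hlt' : 0 < (rd (qB (.r 12)) (.r 21)).ev s1 *
        (Ex.ld (.add (.mul (.r 12) (.r 0)) (.r 10))).ev s1 := hlt
      rw [hev, hev2] at hlt'
      have ht : Y.testBit u = true := by
        by_contra hcon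
        rw [Bool.not_eq_true] at hcon
        rw [hcon] at hlt'; simp at hlt'
      have hav : adj u v = 1 := by
        have : 0 < adj u v := Nat.pos_of_mul_pos_left hlt' |> fun h => by
          rcases Nat.eq_zero_or_pos (adj u v) with h0 | h0
          · rw [h0] at hlt'; simp at hlt'
          · exact h0
        omega
      apply Tr.asg (by simp only [Ex.ok]; omega) (by simp [Ex.cost])
      refine ⟨hm, ?_, ?_⟩
      · rw [St.set_reg_ne _ _ (by norm_num), St.set_reg_self]; simp [Ex.ev]
      · rw [St.set_reg_ne _ _ (by norm_num), St.set_reg_self]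
        simp only [Ex.ev, true_iff]
        exact Or.inr ⟨u, by omega, ht, hav⟩
    · intro hlt
      have hlt' : ¬ 0 < (rd (qB (.r 12)) (.r 21)).ev s1 *
        (Ex.ld (.add (.mul (.r 12) (.r 0)) (.r 10))).ev s1 := hlt
      rw [hev, hev2] at hlt'
      apply Tr.skip
      refine ⟨hm, ?_, ?_⟩
      · rw [St.set_reg_ne _ _ (by norm_num)]; exact h20
      · rw [St.set_reg_ne _ _ (by norm_num), h20']
        constructor
        · rintro (h | ⟨u', hu', h⟩)
          · exact Or.inl h
          · exact Or.inr ⟨u', by omega, h⟩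
        · rintro (h | ⟨u', hu', h1, h2⟩)
          · exact Or.inl h
          · right
            by_cases e : u' = u
            · exfalso
              subst e
              apply hlt'
              rw [h1, h2]; norm_num
            · exact ⟨u', by omega, h1, h2⟩
  · rintro s' ⟨hm, h20, h20'⟩ _ hfr
    refine hQ s' hm h20 h20' (fun y h1 h2 => hfr y h1 ?_)
    simp only [HC.wr, List.append_nil, List.mem_singleton]
    exact h2

end Pool.Agent.TH687.DCS
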