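import Pool.Agent.TH687.DCS.Prog2

/-!
The program, part 3: the table of connected sets, continued.
-/

set_option autoImplicit false

namespace Pool.Agent.TH687.DCS

open Pool.Agent.H588R2 Pool.Agent.TH687.HL

open Classical in
/-- Adjacency matrix. -/
noncomputable def adjF {n : ℕ} (G : SimpleGraph (Fin n)) (u v : ℕ) : ℕ :=
  if h : u < n ∧ v < n then (if G.Adj ⟨u, h.1⟩ ⟨v, h.2⟩ then 1 else 0) else 0

theorem adjF_le {n : ℕ} (G : SimpleGraph (Fin n)) (u v : ℕ) : adjF G u v ≤ 1 := by
  unfold adjF; split_ifs <;> simp

theorem adjF_eq {n : ℕ} (G : SimpleGraph (Fin n)) (u v : Fin n) :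
    adjF G u v = 1 ↔ G.Adj u v := by
  unfold adjF
  rw [dif_pos ⟨u.2, v.2⟩]
  split_ifs with h
  · simpa using h
  · simpa using h

theorem conn_dec {n : ℕ} (G : SimpleGraph (Fin n)) {X : ℕ} (hX : X < 2 ^ n) :
    Conn G (dec n X) ↔ ∃ v < n, X.testBit v = true ∧ (X - 2 ^ v = 0 ∨
      (Conn G (dec n (X - 2 ^ v)) ∧ ∃ u < n, (X - 2 ^ v).testBit u = true ∧ adjF G u v = 1)) := by
  rw [conn_iff]
  constructor
  · rintro ⟨v, hv, h⟩
    rw [mem_dec] at hv
    refine ⟨v, v.2, hv, ?_⟩
    rw [← dec_sub hv] at h
    rcases h with h | ⟨h, u, hu, hadj⟩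
    · left
      exact dec_inj (n := n) (lt_of_le_of_lt (Nat.sub_le _ _) hX) (by positivity) (by rw [h, dec_zero])
    · right
      refine ⟨h, u, u.2, ?_, (adjF_eq G u v).2 hadj⟩
      rwa [mem_dec] at hu
  · rintro ⟨v, hvn, hv, h⟩
    refine ⟨⟨v, hvn⟩, by rw [mem_dec]; exact hv, ?_⟩
    have hd : dec n (X - 2 ^ v) = (dec n X).erase ⟨v, hvn⟩ := dec_sub (v := ⟨v, hvn⟩) hv
    rw [← hd]
    rcases h with h | ⟨h, u, hun, hu, hadj⟩
    · left
      rw [h, dec_zero]
    · right
      exact ⟨h, ⟨u, hun⟩, by rw [mem_dec]; exact hu, (adjF_eq G ⟨u, hun⟩ ⟨v, hvn⟩).1 hadj⟩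

open Classical in
/-- Boolean form of connectedness. -/
noncomputable def cn {n : ℕ} (G : SimpleGraph (Fin n)) (S : Finset (Fin n)) : Bool :=
  decide (Conn G S)

theorem cn_true {n : ℕ} {G : SimpleGraph (Fin n)} {S : Finset (Fin n)} (h : Conn G S) :
    cn G S = true := by
  classical
  unfold cn; exact decide_eq_true h

theorem cn_false {n : ℕ} {G : SimpleGraph (Fin n)} {S : Finset (Fin n)} (h : ¬ Conn G S) :
    cn G S = false := by
  classical
  unfold cn; exact decide_eq_false h

theorem tr_C {w n M : ℕ} {G : SimpleGraph (Fin n)} {lab : ℕ → ℕ} {s : St} {Q : St → Prop}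
    (P : Par w n M) (E : Env n M s) (hB : HasB n M s) (hI : Inp n M (adjF G) lab s)
    (hQ : ∀ s', Keep M (fun q => q = n + 3) s s' → HasT n M (n + 3) (cn G) s' →
      (∀ y, y ∉ codeC.wr → s'.reg y = s.reg y) → Q s') :
    Tr w codeC s (300 * (M * ((n + 1) * (n + 1)))) Q := by
  have hM := P.hM
  have b1 := P.b1
  have b3 := P.b3
  have b4 := P.b4
  have hpos := P.pos
  have hMw := P.Mw
  refine tr_fill (q := n + 3) (Qm := 3 * n + 9) (τ := 200 * ((n + 1) * (n + 1)) + 3)
    (val := fun X => (cn G (dec n X)).toNat) E.r2 hMw b1 (by omega) (by decide) (by decide)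
    (by omega) ?_ ?_ ?_
  · have h1 : 1 ≤ (n + 1) * (n + 1) := by nlinarith
    have := bnd (N := M) (N' := M) (A := (n + 1) * (n + 1)) (c1 := 200) (c2 := 20) (c3 := 3)
      (C := 300) (by omega) (by omega) h1 (by norm_num)
    refine le_trans (le_of_eq ?_) this
    simp only [qC, Ex.cost]
  · intro X hX s1 hfr1 r11 hK1 hlo _
    have r0 : s1.reg 0 = n := by rw [hfr1 0 (by norm_num) (by decide), E.r0]
    have r2 : s1.reg 2 = M := by rw [hfr1 2 (by norm_num) (by decide), E.r2]
    have hB1 : HasB n M s1 := hB.keep hK1 (by rintro q rfl; omega)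
    have hI1 : Inp n M (adjF G) lab s1 := hI.keep hM hK1 (by rintro q rfl; omega)
    refine (Tr.seq (T := 3) (T' := 200 * ((n + 1) * (n + 1))) (Tr.asg (by simp only [Ex.ok]; omega)
      (by simp [Ex.cost]) ?_)).mono (by omega) (fun _ h => h)
    simp only [Ex.ev]
    have g0 : (s1.set 20 0).reg 0 = n := by rw [St.set_reg_ne _ _ (by norm_num), r0]
    refine tr_pw (n := n) (τ := 100 * (n + 1)) (fun v s' => s'.mem = s1.mem ∧ s'.reg 20 ≤ 1 ∧
      (s'.reg 20 = 1 ↔ ∃ v' < v, X.testBit v' = true ∧ (X - 2 ^ v' = 0 ∨
      (Conn G (dec n (X - 2 ^ v')) ∧ ∃ u < n, (X - 2 ^ v').testBit u = true ∧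
        adjF G u v' = 1)))) g0 (by omega) (by omega) (by omega) (by decide) (by decide)
      ?_ ?_ ?_ ?_ ?_
    · have := bnd (N := n) (N' := n + 1) (A := n + 1) (c1 := 100) (c2 := 11) (c3 := 6) (C := 200)
        (by omega) (by omega) (by omega) (by norm_num)
      exact this
    · rintro i s' s'' hm hr ⟨h1, h2, h3⟩
      rw [hr 20 (by norm_num) (by norm_num), hm]
      exact ⟨h1, h2, h3⟩
    · refine ⟨rfl, ?_, ?_⟩
      · rw [St.set_reg_self]; norm_num
      · rw [St.set_reg_self]
        constructor
        · intro h; norm_num at h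
        · rintro ⟨v', hv', _⟩; omega
    · rintro v hv s2 ⟨hm, h20, h20'⟩ r4 r10 hfr2
      have r0' : s2.reg 0 = n := by
        rw [hfr2 0 (by norm_num) (by norm_num) (by decide), g0]
      have r2' : s2.reg 2 = M := by
        rw [hfr2 2 (by norm_num) (by norm_num) (by decide), St.set_reg_ne _ _ (by norm_num), r2]
      have r11' : s2.reg 11 = X := by
        rw [hfr2 11 (by norm_num) (by norm_num) (by decide), St.set_reg_ne _ _ (by norm_num), r11]
      have hbv : bl M s2 (2 + v) X = (X.testBit v).toNat := by
        simp only [bl, hm]; exact hB1 v hv X hX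
      have hle1 : (X.testBit v).toNat ≤ 1 := Bool.toNat_le _
      have hev : (rd (qB (.r 10)) (.r 11)).ev s2 = (X.testBit v).toNat := by
        rw [rd_ev r2']; simp only [qB, Ex.ev, r10, r11']; exact hbv
      have hok : (rd (qB (.r 10)) (.r 11)).ok w s2 := by
        apply rd_ok r2' hMw b1
        · simp only [qB, Ex.ok, Ex.ev, r10]; omega
        · simp only [Ex.ok, r11']; omega
        · simp only [qB, Ex.ev, r10]; omega
        · simp only [Ex.ev, r11']; exact hX
        · rw [← rd_ev r2', hev]; omega
      have hpw : 2 ^ (v + 1) ≤ M := by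
        rw [hM]; exact Nat.pow_le_pow_right (by norm_num) (by omega)
      have hpw2 : 2 ^ v + 2 ^ v = 2 ^ (v + 1) := by rw [pow_succ]; ring
      apply Tr.ite (T := 50 * (n + 1) + 40) (by simp only [Ex.ok]; omega) hok
      · simp only [Ex.cost, rd, cell, qB]; omega
      · intro hlt
        have hlt' : 0 < (rd (qB (.r 10)) (.r 11)).ev s2 := hlt
        rw [hev] at hlt'
        have ht : X.testBit v = true := by
          by_contra hcon
          rw [Bool.not_eq_true] at hcon
          rw [hcon] at hlt'; simp at hlt'
        have hYX : X - 2 ^ v < X := by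
          have := le_of_testBit ht
          have : 0 < 2 ^ v := by positivity
          omega
        refine (Tr.seq (T := 7) (T' := 50 * (n + 1) + 33) (Tr.asg ?_ (by simp [Ex.cost])
          ?_)).mono (by omega) (fun _ h => h)
        · simp only [Ex.ok, r11', r4]; omega
        · simp only [Ex.ev, r11', r4]
          have q21 : (s2.set 21 (X - 2 ^ v)).reg 21 = X - 2 ^ v := St.set_reg_self _ _ _
          have q20 : (s2.set 21 (X - 2 ^ v)).reg 20 = s2.reg 20 :=
            St.set_reg_ne _ _ (by norm_num)
          apply Tr.ite (T := 50 * (n + 1) + 20)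
          · simp only [Ex.ok, q21]; omega
          · simp only [Ex.ok]; omega
          · simp only [Ex.cost]; omega
          · intro hlt2
            simp only [Ex.ev, q21] at hlt2
            apply Tr.asg (by simp only [Ex.ok]; omega) (by simp only [Ex.cost]; omega)
            refine ⟨hm, ?_, ?_⟩
            · rw [St.set_reg_self]; simp [Ex.ev]
            · rw [St.set_reg_self]
              simp only [Ex.ev, true_iff]
              exact ⟨v, by omega, ht, Or.inl (by omega)⟩
          · intro hlt2
            simp only [Ex.ev, q21] at hlt2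
            have k2 : (s2.set 21 (X - 2 ^ v)).reg 2 = M := by
              rw [St.set_reg_ne _ _ (by norm_num), r2']
            have k0 : (s2.set 21 (X - 2 ^ v)).reg 0 = n := by
              rw [St.set_reg_ne _ _ (by norm_num), r0']
            have hcv : bl M s2 (n + 3) (X - 2 ^ v) = (cn G (dec n (X - 2 ^ v))).toNat := by
              simp only [bl, hm]; exact hlo _ hYX
            have hcl : (cn G (dec n (X - 2 ^ v))).toNat ≤ 1 := Bool.toNat_le _
            have hevc : (rd qC (.r 21)).ev (s2.set 21 (X - 2 ^ v)) =
                (cn G (dec n (X - 2 ^ v))).toNat := by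
              rw [rd_ev k2]; simp only [qC, Ex.ev, k0, q21]; exact hcv
            have hokc : (rd qC (.r 21)).ok w (s2.set 21 (X - 2 ^ v)) := by
              apply rd_ok k2 hMw b1
              · simp only [qC, Ex.ok, Ex.ev, k0]; omega
              · simp only [Ex.ok, q21]; omega
              · simp only [qC, Ex.ev, k0]; omega
              · simp only [Ex.ev, q21]; omega
              · rw [← rd_ev k2, hevc]; omega
            apply Tr.ite (T := 50 * (n + 1)) (by simp only [Ex.ok]; omega) hokc
            · simp only [Ex.cost, rd, cell, qC]; omega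
            · intro hlt3
              have hlt3' : 0 < (rd qC (.r 21)).ev (s2.set 21 (X - 2 ^ v)) := hlt3
              rw [hevc] at hlt3'
              have hC : Conn G (dec n (X - 2 ^ v)) := by
                by_contra hcon
                rw [cn_false hcon] at hlt3'
                simp at hlt3'
              have hB2 : HasB n M (s2.set 21 (X - 2 ^ v)) := by
                intro u hu Y hY
                simp only [bl, St.set_mem, hm]; exact hB1 u hu Y hY
              have hI2 : Inp n M (adjF G) lab (s2.set 21 (X - 2 ^ v)) :=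
                ⟨by intro u hu v hv; rw [St.set_mem, hm]; exact hI1.a u hu v hv,
                 by intro v hv; rw [St.set_mem, hm]; exact hI1.l v hv⟩
              refine tr_U (Y := X - 2 ^ v) (v := v) P ⟨k0, k2⟩ hB2 hI2 (adjF_le G) q21 (by omega)
                (by rw [St.set_reg_ne _ _ (by norm_num), r10]) hv (by rw [q20]; exact h20) ?_
              intro s3 hm3 h203 h203' _
              refine ⟨hm3.trans hm, h203, ?_⟩
              rw [h203', q20, h20']
              constructor
              · rintro (⟨v', hv', h⟩ | h)
                · exact ⟨v', by omega, h⟩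
                · exact ⟨v, by omega, ht, Or.inr ⟨hC, h⟩⟩
              · rintro ⟨v', hv', h1, h2⟩
                by_cases e : v' = v
                · subst e
                  rcases h2 with h2 | h2
                  · omega
                  · exact Or.inr h2.2
                · exact Or.inl ⟨v', by omega, h1, h2⟩
            · intro hlt3
              have hlt3' : ¬ 0 < (rd qC (.r 21)).ev (s2.set 21 (X - 2 ^ v)) := hlt3
              rw [hevc] at hlt3'
              have hC : ¬ Conn G (dec n (X - 2 ^ v)) := by
                intro hcon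
                rw [cn_true hcon] at hlt3'
                simp at hlt3'
              apply Tr.skip
              refine ⟨hm, by rw [q20]; exact h20, ?_⟩
              rw [q20, h20']
              constructor
              · rintro ⟨v', hv', h⟩
                exact ⟨v', by omega, h⟩
              · rintro ⟨v', hv', h1, h2⟩
                by_cases e : v' = v
                · subst e
                  rcases h2 with h2 | h2
                  · omega
                  · exact absurd h2.1 hC
                · exact ⟨v', by omega, h1, h2⟩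
      · intro hlt
        have hlt' : ¬ 0 < (rd (qB (.r 10)) (.r 11)).ev s2 := hlt
        rw [hev] at hlt'
        have ht : X.testBit v = false := by
          by_contra hcon
          rw [Bool.not_eq_false] at hcon
          rw [hcon] at hlt'; simp at hlt'
        apply Tr.skip
        refine ⟨hm, h20, ?_⟩
        rw [h20']
        constructor
        · rintro ⟨v', hv', h⟩
          exact ⟨v', by omega, h⟩
        · rintro ⟨v', hv', h1, h2⟩
          by_cases e : v' = v
          · subst e
            rw [ht] at h1; simp at h1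
          · exact ⟨v', by omega, h1, h2⟩
    · rintro s2 ⟨hm, h20, h20'⟩ hfr2
      have r0' : s2.reg 0 = n := by
        rw [hfr2 0 (by norm_num) (by norm_num) (by decide), g0]
      rw [← conn_dec G (by rw [← hM]; exact hX)] at h20'
      refine ⟨hm, ?_, ?_, ?_, ?_⟩
      · simp only [qC, Ex.ok, Ex.ev, r0']; omega
      · simp only [qC, Ex.ev, r0']
      · simp only [Ex.ok]; omega
      · show s2.reg 20 = _
        by_cases hc : Conn G (dec n X)
        · rw [h20'.2 hc, cn_true hc]; rfl
        · have : s2.reg 20 ≠ 1 := fun h => hc (h20'.1 h)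
          rw [cn_false hc]
          simp only [Bool.toNat_false]
          omega
  · intro s' hK hval hfr
    apply hQ s' hK hval
    intro y hy
    apply hfr
    · rintro rfl; exact hy (by decide)
    · intro h; apply hy
      simp only [codeC, fill, HC.wr, List.mem_append, List.mem_cons] at h ⊢
      tauto

end Pool.Agent.TH687.DCS
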