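import Pool.Agent.TH687.DCS.Prog3

/-!
The program, part 4: the tables of the families, and the ranked transforms.
-/

set_option autoImplicit false

namespace Pool.Agent.TH687.DCS

open Pool.Agent.H588R2 Pool.Agent.TH687.HL

/-- Initial table: everything is feasible. -/
def codeG : HC := fill .skip qG (.c 1)

theorem tr_G {w n M : ℕ} {s : St} {Q : St → Prop}
    (P : Par w n M) (E : Env n M s)
    (hQ : ∀ s', Keep M (fun q => q = n + 4) s s' → HasT n M (n + 4) (fun _ => true) s' →
      (∀ y, y ∉ codeG.wr → s'.reg y = s.reg y) → Q s') :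
    Tr w codeG s (30 * M) Q := by
  have b1 := P.b1
  have b3 := P.b3
  have hpos := P.pos
  refine tr_fill (q := n + 4) (Qm := 3 * n + 9) (τ := 0)
    (val := fun X => 1) E.r2 P.Mw b1 (by omega) (by decide) (by decide)
    (by omega) ?_ ?_ ?_
  · simp only [qG, Ex.cost]; omega
  · intro X hX s1 hfr1 r11 hK1 hlo _
    have r0 : s1.reg 0 = n := by rw [hfr1 0 (by norm_num) (by decide), E.r0]
    apply Tr.skip
    refine ⟨rfl, ?_, ?_, ?_, ?_⟩
    · simp only [qG, Ex.ok, Ex.ev, r0]; omega
    · simp only [qG, Ex.ev, r0]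
    · simp only [Ex.ok]; omega
    · rfl
  · intro s' hK hval hfr
    apply hQ s' hK hval
    intro y hy
    apply hfr
    · rintro rfl; exact hy (by decide)
    · intro h; simp [HC.wr] at h

/-- The family of the connected sets containing all vertices with label `i`. -/
noncomputable def fam {n : ℕ} (G : SimpleGraph (Fin n)) (lab : ℕ → ℕ) (i : ℕ)
    (S : Finset (Fin n)) : Bool :=
  cn G S && decide (∀ v : Fin n, lab v = i → v ∈ S)

theorem fam_dec {n : ℕ} (G : SimpleGraph (Fin n)) (lab : ℕ → ℕ) (i X : ℕ) :
    fam G lab i (dec n X) = (cn G (dec n X) &&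
      decide (∀ v < n, lab v = i → X.testBit v = true)) := by
  unfold fam
  congr 1
  rw [decide_eq_decide]
  constructor
  · intro h v hv hl
    have := h ⟨v, hv⟩ hl
    rwa [mem_dec] at this
  · intro h v hl
    rw [mem_dec]
    exact h v v.2 hl

/-- `|a - b|`. -/
def ab (a b : Ex) : Ex := .add (.sub a b) (.sub b a)

theorem ab_ev {a b : Ex} {s : St} : (ab a b).ev s < 1 ↔ a.ev s = b.ev s := by
  simp only [ab, Ex.ev]; omega

def codeF : HC := fill
  (.seq (.asg 20 (rd qC (.r 11))) (.loop 10 0 (.ite
    (ab (.ld (.add (.mul (.r 0) (.r 0)) (.r 10))) (.add (.r 14) (.c 1)))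
    (.sub (.c 1) (rd (qB (.r 10)) (.r 11))) (.asg 20 (.c 0)) .skip)))
  qF (.r 20)

theorem tr_F {w n M i : ℕ} {G : SimpleGraph (Fin n)} {lab : ℕ → ℕ} {s : St} {Q : St → Prop}
    (P : Par w n M) (E : Env n M s) (hB : HasB n M s) (hI : Inp n M (adjF G) lab s)
    (hC : HasT n M (n + 3) (cn G) s) (h14 : s.reg 14 = i) (hi : i < n)
    (hlab : ∀ v < n, lab v ≤ n)
    (hQ : ∀ s', Keep M (fun q => q = n + 5) s s' → HasT n M (n + 5) (fam G lab (i + 1)) s' →
      (∀ y, y ∉ codeF.wr → s'.reg y = s.reg y) → Q s') :
    Tr w codeF s (100 * (M * (n + 1))) Q := by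
  have hM := P.hM
  have b1 := P.b1
  have b3 := P.b3
  have b4 := P.b4
  have hpos := P.pos
  have hMw := P.Mw
  have hnn : n * n + n < 2 ^ w := by
    have : n < M := by rw [hM]; exact Nat.lt_two_pow_self
    have b2 := P.b2
    nlinarith
  refine tr_fill (q := n + 5) (Qm := 3 * n + 9) (τ := 54 * (n + 1) + 17)
    (val := fun X => (fam G lab (i + 1) (dec n X)).toNat) E.r2 hMw b1 (by omega) (by decide)
    (by decide) (by omega) ?_ ?_ ?_
  · have := bnd (N := M) (N' := M) (A := n + 1) (c1 := 54) (c2 := 34) (c3 := 3)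
      (C := 100) (by omega) (by omega) (by omega) (by norm_num)
    refine le_trans (le_of_eq ?_) this
    simp only [qF, Ex.cost]
  · intro X hX s1 hfr1 r11 hK1 hlo _
    have r0 : s1.reg 0 = n := by rw [hfr1 0 (by norm_num) (by decide), E.r0]
    have r2 : s1.reg 2 = M := by rw [hfr1 2 (by norm_num) (by decide), E.r2]
    have r14 : s1.reg 14 = i := by rw [hfr1 14 (by norm_num) (by decide), h14]
    have hB1 : HasB n M s1 := hB.keep hK1 (by rintro q rfl; omega)
    have hI1 : Inp n M (adjF G) lab s1 := hI.keep hM hK1 (by rintro q rfl; omega)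
    have hC1 : HasT n M (n + 3) (cn G) s1 := hC.keep hK1 (by omega)
    have hcl : (cn G (dec n X)).toNat ≤ 1 := Bool.toNat_le _
    have hevc : (rd qC (.r 11)).ev s1 = (cn G (dec n X)).toNat := by
      rw [rd_ev r2]; simp only [qC, Ex.ev, r0, r11]; exact hC1 X hX
    have hokc : (rd qC (.r 11)).ok w s1 := by
      apply rd_ok r2 hMw b1
      · simp only [qC, Ex.ok, Ex.ev, r0]; omega
      · simp only [Ex.ok, r11]; omega
      · simp only [qC, Ex.ev, r0]; omega
      · simp only [Ex.ev, r11]; omega
      · rw [← rd_ev r2, hevc]; omega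
    refine (Tr.seq (T := 13) (T' := 54 * (n + 1) + 4) (Tr.asg hokc
      (by simp [Ex.cost, rd, cell, qC]) ?_)).mono (by omega) (fun _ h => h)
    rw [hevc]
    have g0 : (s1.set 20 (cn G (dec n X)).toNat).reg 0 = n := by
      rw [St.set_reg_ne _ _ (by norm_num), r0]
    refine Tr.loop (fun v s' => s'.mem = s1.mem ∧ s'.reg 20 =
      (cn G (dec n X) && decide (∀ v' < v, lab v' = i + 1 → X.testBit v' = true)).toNat)
      50 (N := n) g0 (by omega) (by omega) (by omega) ?_ ?_ ?_
    · refine ⟨rfl, ?_⟩
      rw [St.set_reg_ne _ _ (by norm_num), St.set_reg_self]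
      simp
    · rintro v hv s2 ⟨hm, h20⟩ r10 hfr2
      have r0' : s2.reg 0 = n := by
        rw [hfr2 0 (by norm_num) (by decide), g0]
      have r2' : s2.reg 2 = M := by
        rw [hfr2 2 (by norm_num) (by decide), St.set_reg_ne _ _ (by norm_num), r2]
      have r11' : s2.reg 11 = X := by
        rw [hfr2 11 (by norm_num) (by decide), St.set_reg_ne _ _ (by norm_num), r11]
      have r14' : s2.reg 14 = i := by
        rw [hfr2 14 (by norm_num) (by decide), St.set_reg_ne _ _ (by norm_num), r14]
      have hbv : bl M s2 (2 + v) X = (X.testBit v).toNat := by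
        simp only [bl, hm]; exact hB1 v hv X hX
      have hle1 : (X.testBit v).toNat ≤ 1 := Bool.toNat_le _
      have hev : (rd (qB (.r 10)) (.r 11)).ev s2 = (X.testBit v).toNat := by
        rw [rd_ev r2']; simp only [qB, Ex.ev, r10, r11']; exact hbv
      have hok : (rd (qB (.r 10)) (.r 11)).ok w s2 := by
        apply rd_ok r2' hMw b1
        · simp only [qB, Ex.ok, Ex.ev, r10]; omega
        · simp only [Ex.ok, r11']; omega
        · simp only [qB, Ex.ev, r10]; omega
        · simp only [Ex.ev, r11']; exact hX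
        · rw [← rd_ev r2', hev]; omega
      have hlv := hlab v hv
      have hll : s2.mem (n * n + v) = lab v := by rw [hm]; exact hI1.l v hv
      have hevl : (Ex.ld (.add (.mul (.r 0) (.r 0)) (.r 10))).ev s2 = lab v := by
        simp only [Ex.ev, r0', r10]; exact hll
      have hokl : (Ex.ld (.add (.mul (.r 0) (.r 0)) (.r 10))).ok w s2 := by
        simp only [Ex.ok, Ex.ev, r0', r10, hll]; omega
      have hevi : (Ex.add (.r 14) (.c 1)).ev s2 = i + 1 := by simp only [Ex.ev, r14']
      have hoki : (Ex.add (.r 14) (.c 1)).ok w s2 := by simp only [Ex.ok, Ex.ev, r14']; omega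
      have e1 : (ab (.ld (.add (.mul (.r 0) (.r 0)) (.r 10))) (.add (.r 14) (.c 1))).ev s2 =
          (lab v - (i + 1)) + ((i + 1) - lab v) := by
        show (Ex.ld (.add (.mul (.r 0) (.r 0)) (.r 10))).ev s2 -
          (Ex.add (.r 14) (.c 1)).ev s2 + ((Ex.add (.r 14) (.c 1)).ev s2 -
          (Ex.ld (.add (.mul (.r 0) (.r 0)) (.r 10))).ev s2) = _
        rw [hevl, hevi]
      have e2 : (Ex.sub (.c 1) (rd (qB (.r 10)) (.r 11))).ev s2 = 1 - (X.testBit v).toNat := by
        show 1 - (rd (qB (.r 10)) (.r 11)).ev s2 = _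
        rw [hev]
      apply Tr.ite (T := 3)
      · refine ⟨⟨hokl, hoki⟩, ⟨hoki, hokl⟩, ?_⟩
        show (Ex.ld (.add (.mul (.r 0) (.r 0)) (.r 10))).ev s2 -
          (Ex.add (.r 14) (.c 1)).ev s2 + ((Ex.add (.r 14) (.c 1)).ev s2 -
          (Ex.ld (.add (.mul (.r 0) (.r 0)) (.r 10))).ev s2) < _
        rw [hevl, hevi]; omega
      · refine ⟨?_, hok⟩
        simp only [Ex.ok]; omega
      · simp only [Ex.cost, rd, cell, qB, ab]; omega
      · intro hlt
        rw [e1, e2] at hlt
        have h1 : lab v = i + 1 := by omega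
        have h2 : (X.testBit v).toNat = 0 := by omega
        have ht : X.testBit v = false := by
          by_contra hcon
          rw [Bool.not_eq_false] at hcon
          rw [hcon] at h2; simp at h2
        apply Tr.asg (by simp only [Ex.ok]; omega) (by simp [Ex.cost])
        refine ⟨hm, ?_⟩
        rw [St.set_reg_ne _ _ (by norm_num), St.set_reg_self]
        have : decide (∀ v' < v + 1, lab v' = i + 1 → X.testBit v' = true) = false := by
          apply decide_eq_false
          intro h
          have := h v (by omega) h1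
          rw [ht] at this; simp at this
        rw [this, Bool.and_false]
        rfl
      · intro hlt
        rw [e1, e2] at hlt
        apply Tr.skip
        refine ⟨hm, ?_⟩
        rw [St.set_reg_ne _ _ (by norm_num), h20]
        congr 2
        rw [decide_eq_decide]
        constructor
        · intro h v' hv' hl
          by_cases e : v' = v
          · subst e
            by_contra hcon
            rw [Bool.not_eq_true] at hcon
            rw [hcon, hl] at hlt
            simp at hlt
          · exact h v' (by omega) hl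
        · intro h v' hv' hl
          exact h v' (by omega) hl
    · rintro s2 ⟨hm, h20⟩ _ hfr2
      have r0' : s2.reg 0 = n := by
        rw [hfr2 0 (by norm_num) (by decide), g0]
      rw [← fam_dec] at h20
      have := Bool.toNat_le (fam G lab (i + 1) (dec n X))
      refine ⟨hm, ?_, ?_, ?_, h20⟩
      · simp only [qF, Ex.ok, Ex.ev, r0']; omega
      · simp only [qF, Ex.ev, r0']
      · simp only [Ex.ok]; omega
  · intro s' hK hval hfr
    apply hQ s' hK hval
    intro y hy
    apply hfr
    · rintro rfl; exact hy (by decide)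
    · intro h; apply hy
      simp only [codeF, fill, HC.wr, List.mem_append, List.mem_cons] at h ⊢
      tauto

end Pool.Agent.TH687.DCS
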