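import Pool.Agent.TH687.DCS.Prog4

/-!
The program, part 5: the ranked transforms.
-/

set_option autoImplicit false

namespace Pool.Agent.TH687.DCS

open Pool.Agent.H588R2 Pool.Agent.TH687.HL

/-- The expression `e` has value `q`, whatever the scratch registers contain. -/
def Pt (w : ℕ) (s : St) (e : Ex) (q : ℕ) : Prop :=
  ∀ s', (∀ y, y ≠ 4 → y ≠ 10 → y ≠ 11 → y ≠ 20 → s'.reg y = s.reg y) → e.ok w s' ∧ e.ev s' = q

theorem Pt.keep {w : ℕ} {s s1 : St} {e : Ex} {q : ℕ} (h : Pt w s e q)
    (hr : ∀ y, y ≠ 4 → y ≠ 10 → y ≠ 11 → y ≠ 20 → s1.reg y = s.reg y) : Pt w s1 e q := by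
  intro s' hs'
  exact h s' (fun y h1 h2 h3 h4 => (hs' y h1 h2 h3 h4).trans (hr y h1 h2 h3 h4))

/-- Copy the entries of rank `rk` of the table `src` to `dst`, and put zeros elsewhere. -/
def codeR (dst src rk : Ex) : HC := fill
  (.ite (ab (rd qP (.r 11)) rk) (.c 1) (.asg 20 (rd src (.r 11))) (.asg 20 (.c 0))) dst (.r 20)

theorem tr_R {w n M dq sq j T : ℕ} {dst src rk : Ex} {f : Finset (Fin n) → Bool}
    {s : St} {Q : St → Prop} (P : Par w n M) (E : Env n M s)
    (hP : HasP n M s) (hS : HasT n M sq f s) (hd : Pt w s dst dq) (hs : Pt w s src sq)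
    (hr : Pt w s rk j) (hdq : dq < 3 * n + 9) (hsq : sq < 3 * n + 9) (hne : dq ≠ sq)
    (hnp : dq ≠ n + 2) (hj : j ≤ n)
    (hT : M * (2 * rk.cost + src.cost + dst.cost + 60) + 3 ≤ T)
    (hQ : ∀ s', Keep M (fun q => q = dq) s s' →
      (∀ X < M, bl M s' dq X = ZA f j 0 (dec n X)) →
      (∀ y, y ≠ 11 → y ≠ 20 → s'.reg y = s.reg y) → Q s') :
    Tr w (codeR dst src rk) s T Q := by
  have hM := P.hM
  have b1 := P.b1
  have b3 := P.b3
  have b4 := P.b4
  have hpos := P.pos
  have hMw := P.Mw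
  refine tr_fill (q := dq) (Qm := 3 * n + 9) (τ := 2 * rk.cost + src.cost + 45)
    (val := fun X => ZA f j 0 (dec n X)) E.r2 hMw b1 hdq (by simp [HC.wr]) (by simp [HC.wr])
    (by omega) ?_ ?_ ?_
  · refine le_trans ?_ hT
    apply Nat.add_le_add_right
    apply Nat.mul_le_mul_left
    simp only [Ex.cost]; omega
  · intro X hX s1 hfr1 r11 hK1 hlo _
    have hreg : ∀ y, y ≠ 4 → y ≠ 10 → y ≠ 11 → y ≠ 20 → s1.reg y = s.reg y :=
      fun y _ _ h1 h2 => hfr1 y h1 (by simp [HC.wr, h2])
    have r0 : s1.reg 0 = n := by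
      rw [hreg 0 (by norm_num) (by norm_num) (by norm_num) (by norm_num), E.r0]
    have r2 : s1.reg 2 = M := by
      rw [hreg 2 (by norm_num) (by norm_num) (by norm_num) (by norm_num), E.r2]
    have hcn : (dec n X).card ≤ n := by
      have := Finset.card_le_univ (dec n X); simpa using this
    have hevp : (rd qP (.r 11)).ev s1 = (dec n X).card := by
      rw [rd_ev r2]; simp only [qP, Ex.ev, r0, r11]
      rw [hK1.bl hX (by omega)]; exact hP X hX
    have hokp : (rd qP (.r 11)).ok w s1 := by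
      apply rd_ok r2 hMw b1
      · simp only [qP, Ex.ok, Ex.ev, r0]; omega
      · simp only [Ex.ok, r11]; omega
      · simp only [qP, Ex.ev, r0]; omega
      · simp only [Ex.ev, r11]; omega
      · rw [← rd_ev r2, hevp]; omega
    obtain ⟨hrok, hrev⟩ := hr s1 hreg
    obtain ⟨hsok, hsev⟩ := hs s1 hreg
    have hfl : (f (dec n X)).toNat ≤ 1 := Bool.toNat_le _
    have hevs : (rd src (.r 11)).ev s1 = (f (dec n X)).toNat := by
      rw [rd_ev r2]; simp only [hsev, Ex.ev, r11]
      rw [hK1.bl hX (by omega)]; exact hS X hX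
    have hoks : (rd src (.r 11)).ok w s1 := by
      apply rd_ok r2 hMw b1 hsok
      · simp only [Ex.ok, r11]; omega
      · rw [hsev]; exact hsq
      · simp only [Ex.ev, r11]; exact hX
      · rw [← rd_ev r2, hevs]; omega
    have fin : ∀ z, z < 2 ^ w → z = ZA f j 0 (dec n X) →
        (s1.set 20 z).mem = s1.mem ∧ dst.ok w (s1.set 20 z) ∧
        dst.ev (s1.set 20 z) = dq ∧ (Ex.r 20).ok w (s1.set 20 z) ∧
        (Ex.r 20).ev (s1.set 20 z) = ZA f j 0 (dec n X) := by
      intro z hz hz'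
      obtain ⟨h1, h2⟩ := hd (s1.set 20 z) (fun y a1 a2 a3 a4 => by
        rw [St.set_reg_ne _ _ a4]; exact hreg y a1 a2 a3 a4)
      refine ⟨rfl, h1, h2, ?_, ?_⟩
      · simp only [Ex.ok, St.set_reg_self]; exact hz
      · simp only [Ex.ev, St.set_reg_self]; exact hz'
    apply Tr.ite (T := src.cost + 12)
    · refine ⟨⟨hokp, hrok⟩, ⟨hrok, hokp⟩, ?_⟩
      show (rd qP (.r 11)).ev s1 - rk.ev s1 + (rk.ev s1 - (rd qP (.r 11)).ev s1) < _
      rw [hevp, hrev]; omega
    · simp only [Ex.ok]; omega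
    · simp only [ab, Ex.cost, rd, cell, qP]; omega
    · intro hlt
      have h := ab_ev.1 hlt
      rw [hevp, hrev] at h
      apply Tr.asg hoks (by simp only [Ex.cost, rd, cell]; omega)
      apply fin
      · rw [hevs]; omega
      · rw [hevs, ZA_zero]
        cases hfd : f (dec n X)
        · simp
        · simp [h]
    · intro hlt
      have h : (dec n X).card ≠ j := by
        intro h
        apply hlt
        have : (ab (rd qP (.r 11)) rk).ev s1 < 1 := by
          rw [ab_ev, hevp, hrev]; exact h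
        exact this
      apply Tr.asg (by simp only [Ex.ok]; omega) (by simp only [Ex.cost]; omega)
      apply fin
      · simp only [Ex.ev]; omega
      · rw [ZA_zero, if_neg (fun h' => h h'.1)]; rfl
  · intro s' hK hval hfr
    exact hQ s' hK hval (fun y h1 h2 => hfr y h1 (by simp [HC.wr, h2]))

/-- In-place transform of a table, bit by bit. -/
def codeT (op : Ex → Ex → Ex) (dst : Ex) : HC := pwLoop (fill
  (.ite (.c 0) (rd (qB (.r 10)) (.r 11))
    (.asg 20 (op (rd dst (.r 11)) (rd dst (.sub (.r 11) (.r 4)))))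
    (.asg 20 (rd dst (.r 11)))) dst (.r 20))

theorem tr_T {w n M dq dc T : ℕ} {dst : Ex} {op : Ex → Ex → Ex} {opN : ℕ → ℕ → ℕ}
    {s : St} {Q : St → Prop} (P : Par w n M) (E : Env n M s) (hB : HasB n M s)
    (hop : ∀ a b s, (op a b).ev s = opN (a.ev s) (b.ev s))
    (hopok : ∀ a b s, a.ok w s → b.ok w s → opN (a.ev s) (b.ev s) < 2 ^ w → (op a b).ok w s)
    (hcost : ∀ a b, (op a b).cost = a.cost + b.cost + 1)
    (F : ℕ → ℕ → ℕ)
    (hF : ∀ v < n, ∀ X < M, F (v + 1) X = if X.testBit v = true then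
      opN (F v X) (F v (X - 2 ^ v)) else F v X)
    (hlt : ∀ v X, F v X < 2 ^ w)
    (hd : Pt w s dst dq) (hdc : dst.cost ≤ dc) (hdq : dq < 3 * n + 9) (hdq' : n + 2 ≤ dq)
    (h0 : ∀ X < M, bl M s dq X = F 0 X)
    (hT : n * (M * (3 * dc + 60) + 14) + 6 ≤ T)
    (hQ : ∀ s', Keep M (fun q => q = dq) s s' → (∀ X < M, bl M s' dq X = F n X) →
      (∀ y, y ≠ 4 → y ≠ 10 → y ≠ 11 → y ≠ 20 → s'.reg y = s.reg y) → Q s') :
    Tr w (codeT op dst) s T Q := by
  have hM := P.hM
  have b1 := P.b1
  have b3 := P.b3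
  have b4 := P.b4
  have hpos := P.pos
  have hMw := P.Mw
  refine tr_pw (n := n) (τ := M * (3 * dc + 60) + 3) (fun v s' =>
    Keep M (fun q => q = dq) s s' ∧ ∀ X < M, bl M s' dq X = F v X) E.r0 (by omega) (by omega)
    (by omega) (by simp [HC.wr, fill]) (by simp [HC.wr, fill]) ?_ ?_ ?_ ?_ ?_
  · refine le_trans (le_of_eq ?_) hT
    ring
  · rintro i s' s'' hm _ ⟨h1, h2⟩
    refine ⟨h1.trans (Keep.of_mem hm), ?_⟩
    intro X hX
    simp only [bl, hm]
    exact h2 X hX
  · exact ⟨Keep.refl _ _ _, h0⟩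
  · rintro v hv s' ⟨hK, hval⟩ r4 r10 hfr
    have hreg : ∀ y, y ≠ 4 → y ≠ 10 → y ≠ 11 → y ≠ 20 → s'.reg y = s.reg y :=
      fun y h1 h2 h3 h4 => hfr y h1 h2 (by simp [HC.wr, fill, h3, h4])
    have r0 : s'.reg 0 = n := by
      rw [hreg 0 (by norm_num) (by norm_num) (by norm_num) (by norm_num), E.r0]
    have r2 : s'.reg 2 = M := by
      rw [hreg 2 (by norm_num) (by norm_num) (by norm_num) (by norm_num), E.r2]
    have hB' : HasB n M s' := hB.keep hK (by rintro q rfl; exact hdq')
    have hpw : 2 ^ (v + 1) ≤ M := by rw [hM]; exact Nat.pow_le_pow_right (by norm_num) (by omega)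
    have hpw2 : 2 ^ v + 2 ^ v = 2 ^ (v + 1) := by rw [pow_succ]; ring
    have hv0 : 0 < 2 ^ v := by positivity
    refine tr_fill (q := dq) (Qm := 3 * n + 9) (τ := 2 * dc + 45) (val := fun X => F (v + 1) X)
      r2 hMw b1 hdq (by simp [HC.wr]) (by simp [HC.wr]) (by omega) ?_ ?_ ?_
    · apply Nat.add_le_add_right
      apply Nat.mul_le_mul_left
      simp only [Ex.cost]; omega
    · intro X hX s1 hfr1 r11 hK1 hlo hhi
      have r4' : s1.reg 4 = 2 ^ v := by rw [hfr1 4 (by norm_num) (by simp [HC.wr]), r4]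
      have r10' : s1.reg 10 = v := by rw [hfr1 10 (by norm_num) (by simp [HC.wr]), r10]
      have r2' : s1.reg 2 = M := by rw [hfr1 2 (by norm_num) (by simp [HC.wr]), r2]
      have hreg1 : ∀ y, y ≠ 4 → y ≠ 10 → y ≠ 11 → y ≠ 20 → s1.reg y = s.reg y :=
        fun y h1 h2 h3 h4 => (hfr1 y h3 (by simp [HC.wr, h4])).trans (hreg y h1 h2 h3 h4)
      have hbv : bl M s1 (2 + v) X = (X.testBit v).toNat := by
        rw [hK1.bl hX (by omega)]; exact hB' v hv X hX
      have hle1 : (X.testBit v).toNat ≤ 1 := Bool.toNat_le _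
      have hev : (rd (qB (.r 10)) (.r 11)).ev s1 = (X.testBit v).toNat := by
        rw [rd_ev r2']; simp only [qB, Ex.ev, r10', r11]; exact hbv
      have hok : (rd (qB (.r 10)) (.r 11)).ok w s1 := by
        apply rd_ok r2' hMw b1
        · simp only [qB, Ex.ok, Ex.ev, r10']; omega
        · simp only [Ex.ok, r11]; omega
        · simp only [qB, Ex.ev, r10']; omega
        · simp only [Ex.ev, r11]; exact hX
        · rw [← rd_ev r2', hev]; omega
      obtain ⟨hdok, hdev⟩ := hd s1 hreg1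
      have hevX : (rd dst (.r 11)).ev s1 = F v X := by
        rw [rd_ev r2']; simp only [hdev, Ex.ev, r11]
        rw [hhi X le_rfl hX]; exact hval X hX
      have hokX : (rd dst (.r 11)).ok w s1 := by
        apply rd_ok r2' hMw b1 hdok
        · simp only [Ex.ok, r11]; omega
        · rw [hdev]; exact hdq
        · simp only [Ex.ev, r11]; exact hX
        · rw [← rd_ev r2', hevX]; exact hlt _ _
      have fin : ∀ z, z < 2 ^ w → z = F (v + 1) X →
          (s1.set 20 z).mem = s1.mem ∧ dst.ok w (s1.set 20 z) ∧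
          dst.ev (s1.set 20 z) = dq ∧ (Ex.r 20).ok w (s1.set 20 z) ∧
          (Ex.r 20).ev (s1.set 20 z) = F (v + 1) X := by
        intro z hz hz'
        obtain ⟨h1, h2⟩ := hd (s1.set 20 z) (fun y a1 a2 a3 a4 => by
          rw [St.set_reg_ne _ _ a4]; exact hreg1 y a1 a2 a3 a4)
        refine ⟨rfl, h1, h2, ?_, ?_⟩
        · simp only [Ex.ok, St.set_reg_self]; exact hz
        · simp only [Ex.ev, St.set_reg_self]; exact hz'
      apply Tr.ite (T := 2 * dc + 25) (by simp only [Ex.ok]; omega) hok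
      · simp only [Ex.cost, rd, cell, qB]; omega
      · intro hlt'
        have hlt1 : 0 < (rd (qB (.r 10)) (.r 11)).ev s1 := hlt'
        rw [hev] at hlt1
        have ht : X.testBit v = true := by
          by_contra hcon
          rw [Bool.not_eq_true] at hcon
          rw [hcon] at hlt1; simp at hlt1
        have hle := le_of_testBit ht
        have hft : (X - 2 ^ v).testBit v = false := by
          rw [testBit_sub_self v ht v]; simp
        have hY : F (v + 1) (X - 2 ^ v) = F v (X - 2 ^ v) := by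
          rw [hF v hv _ (by omega), hft]; simp
        have hevY : (rd dst (.sub (.r 11) (.r 4))).ev s1 = F v (X - 2 ^ v) := by
          rw [rd_ev r2']; simp only [hdev, Ex.ev, r11, r4']
          rw [hlo _ (by omega), hY]
        have hokY : (rd dst (.sub (.r 11) (.r 4))).ok w s1 := by
          apply rd_ok r2' hMw b1 hdok
          · simp only [Ex.ok, r11, r4']; omega
          · rw [hdev]; exact hdq
          · simp only [Ex.ev, r11, r4']; omega
          · rw [← rd_ev r2', hevY]; exact hlt _ _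
        have hFX : opN (F v X) (F v (X - 2 ^ v)) = F (v + 1) X := by
          rw [hF v hv X hX, if_pos ht]
        apply Tr.asg
        · apply hopok _ _ _ hokX hokY
          rw [hevX, hevY, hFX]; exact hlt _ _
        · rw [hcost]; simp only [Ex.cost, rd, cell]; omega
        · rw [hop, hevX, hevY, hFX]
          exact fin _ (hlt _ _) rfl
      · intro hlt'
        have hlt1 : ¬ 0 < (rd (qB (.r 10)) (.r 11)).ev s1 := hlt'
        rw [hev] at hlt1
        have ht : ¬ X.testBit v = true := by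
          intro hcon
          rw [hcon] at hlt1; simp at hlt1
        apply Tr.asg hokX
        · simp only [Ex.cost, rd, cell]; omega
        · rw [hevX]
          exact fin _ (hlt _ _) (by rw [hF v hv X hX, if_neg ht])
    · intro s1 hK1 hval1 _
      exact ⟨hK.trans hK1, hval1⟩
  · rintro s' ⟨hK, hval⟩ hfr
    exact hQ s' hK hval (fun y h1 h2 h3 h4 => hfr y h1 h2 (by simp [HC.wr, fill, h3, h4]))

end Pool.Agent.TH687.DCS
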