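import Pool.Agent.TH687.DCS.Prog5

/-!
The program, part 6: one stage of the dynamic programme.
-/

set_option autoImplicit false

namespace Pool.Agent.TH687.DCS

open Pool.Agent.H588R2 Pool.Agent.TH687.HL

/-- The ranked products. -/
def codeH : HC := fill
  (.seq (.asg 20 (.c 0)) (.loop 13 16 (.asg 20 (.add (.r 20)
    (.mul (rd (qZ (.r 13)) (.r 11)) (rd (qY (.sub (.r 15) (.r 13))) (.r 11)))))))
  qH (.r 20)

theorem HB_lt {w n M : ℕ} (P : Par w n M) (g f : Finset (Fin n) → Bool) (r v : ℕ)
    (S : Finset (Fin n)) : HB g f r v S < 2 ^ w := by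
  have h := HB_le g f r v S
  rw [← P.hM] at h
  have h2 := P.b2
  have : M * M ≤ (n + 2) * (M * M) := Nat.le_mul_of_pos_left _ (by omega)
  omega

theorem ZA_lt {w n M : ℕ} (P : Par w n M) (g : Finset (Fin n) → Bool) (j v : ℕ)
    (S : Finset (Fin n)) : ZA g j v S < 2 ^ w := by
  have h := ZA_le g j v S
  rw [← P.hM] at h
  have := P.Mw
  omega

theorem tr_H {w n M r : ℕ} {g f : Finset (Fin n) → Bool} {s : St} {Q : St → Prop}
    (P : Par w n M) (E : Env n M s)
    (hZ : ∀ j ≤ n, ∀ X < M, bl M s (n + 7 + j) X = ZA g j n (dec n X))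
    (hY : ∀ j ≤ n, ∀ X < M, bl M s (2 * n + 8 + j) X = ZA f j n (dec n X))
    (h15 : s.reg 15 = r) (h16 : s.reg 16 = r + 1) (hr : r ≤ n)
    (hQ : ∀ s', Keep M (fun q => q = n + 6) s s' →
      (∀ X < M, bl M s' (n + 6) X = HB g f r 0 (dec n X)) →
      (∀ y, y ∉ codeH.wr → s'.reg y = s.reg y) → Q s') :
    Tr w codeH s (120 * (M * (n + 1))) Q := by
  have hM := P.hM
  have b1 := P.b1
  have b3 := P.b3
  have b4 := P.b4
  have hpos := P.pos
  have hMw := P.Mw
  refine tr_fill (q := n + 6) (Qm := 3 * n + 9) (τ := 70 * (n + 1) + 6)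
    (val := fun X => HB g f r 0 (dec n X)) E.r2 hMw b1 (by omega) (by decide)
    (by decide) (by omega) ?_ ?_ ?_
  · have := bnd (N := M) (N' := M) (A := n + 1) (c1 := 70) (c2 := 23) (c3 := 3)
      (C := 120) (by omega) (by omega) (by omega) (by norm_num)
    refine le_trans (le_of_eq ?_) this
    simp only [qH, Ex.cost]
  · intro X hX s1 hfr1 r11 hK1 hlo _
    have r0 : s1.reg 0 = n := by rw [hfr1 0 (by norm_num) (by decide), E.r0]
    have r2 : s1.reg 2 = M := by rw [hfr1 2 (by norm_num) (by decide), E.r2]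
    have r15 : s1.reg 15 = r := by rw [hfr1 15 (by norm_num) (by decide), h15]
    have r16 : s1.reg 16 = r + 1 := by rw [hfr1 16 (by norm_num) (by decide), h16]
    refine (Tr.seq (T := 3) (T' := 70 * (n + 1) + 3) (Tr.asg (by simp only [Ex.ok]; omega)
      (by simp [Ex.cost]) ?_)).mono (by omega) (fun _ h => h)
    simp only [Ex.ev]
    have hpart : ∀ j, j ≤ r + 1 → ∑ l ∈ Finset.range j, ZA g l n (dec n X) *
        ZA f (r - l) n (dec n X) < 2 ^ w := by
      intro j hj
      refine lt_of_le_of_lt ?_ (HB_lt P g f r 0 (dec n X))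
      rw [HB_zero]
      exact Finset.sum_le_sum_of_subset (Finset.range_mono hj)
    refine Tr.loop (fun j s' => s'.mem = s1.mem ∧ s'.reg 20 =
      ∑ l ∈ Finset.range j, ZA g l n (dec n X) * ZA f (r - l) n (dec n X))
      60 (N := r + 1) ?_ (by omega) (by omega) ?_ ?_ ?_ ?_
    · rw [St.set_reg_ne _ _ (by norm_num), r16]
    · have : (r + 1) * (60 + 4) ≤ (n + 1) * 64 := Nat.mul_le_mul_right _ (by omega)
      omega
    · refine ⟨rfl, ?_⟩
      rw [St.set_reg_ne _ _ (by norm_num), St.set_reg_self]
      simp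
    · rintro j hj s2 ⟨hm, h20⟩ r13 hfr2
      have r0' : s2.reg 0 = n := by
        rw [hfr2 0 (by norm_num) (by decide), St.set_reg_ne _ _ (by norm_num), r0]
      have r2' : s2.reg 2 = M := by
        rw [hfr2 2 (by norm_num) (by decide), St.set_reg_ne _ _ (by norm_num), r2]
      have r11' : s2.reg 11 = X := by
        rw [hfr2 11 (by norm_num) (by decide), St.set_reg_ne _ _ (by norm_num), r11]
      have r15' : s2.reg 15 = r := by
        rw [hfr2 15 (by norm_num) (by decide), St.set_reg_ne _ _ (by norm_num), r15]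
      have hz : bl M s2 (n + 7 + j) X = ZA g j n (dec n X) := by
        simp only [bl, hm]
        have := hK1.bl (q := n + 7 + j) hX (by omega)
        simp only [bl] at this
        rw [this]; exact hZ j (by omega) X hX
      have hy : bl M s2 (2 * n + 8 + (r - j)) X = ZA f (r - j) n (dec n X) := by
        simp only [bl, hm]
        have := hK1.bl (q := 2 * n + 8 + (r - j)) hX (by omega)
        simp only [bl] at this
        rw [this]; exact hY (r - j) (by omega) X hX
      have hqz : (qZ (.r 13)).ev s2 = n + 7 + j := by simp only [qZ, Ex.ev, r0', r13]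
      have hqy : (qY (.sub (.r 15) (.r 13))).ev s2 = 2 * n + 8 + (r - j) := by
        simp only [qY, Ex.ev, r0', r13, r15']; ring
      have hqzo : (qZ (.r 13)).ok w s2 := by simp only [qZ, Ex.ok, Ex.ev, r0', r13]; omega
      have hqyo : (qY (.sub (.r 15) (.r 13))).ok w s2 := by
        simp only [qY, Ex.ok, Ex.ev, r0', r13, r15']; omega
      have evz : (rd (qZ (.r 13)) (.r 11)).ev s2 = ZA g j n (dec n X) := by
        rw [rd_ev r2', hqz]; simp only [Ex.ev, r11']; exact hz
      have evy : (rd (qY (.sub (.r 15) (.r 13))) (.r 11)).ev s2 =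
          ZA f (r - j) n (dec n X) := by
        rw [rd_ev r2', hqy]; simp only [Ex.ev, r11']; exact hy
      have okz : (rd (qZ (.r 13)) (.r 11)).ok w s2 := by
        apply rd_ok r2' hMw b1 hqzo
        · simp only [Ex.ok, r11']; omega
        · rw [hqz]; omega
        · simp only [Ex.ev, r11']; exact hX
        · rw [← rd_ev r2', evz]; exact ZA_lt P _ _ _ _
      have oky : (rd (qY (.sub (.r 15) (.r 13))) (.r 11)).ok w s2 := by
        apply rd_ok r2' hMw b1 hqyo
        · simp only [Ex.ok, r11']; omega
        · rw [hqy]; omega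
        · simp only [Ex.ev, r11']; exact hX
        · rw [← rd_ev r2', evy]; exact ZA_lt P _ _ _ _
      have hs1 := hpart j (by omega)
      have hs2 := hpart (j + 1) (by omega)
      rw [Finset.sum_range_succ] at hs2
      have evp : (Ex.mul (rd (qZ (.r 13)) (.r 11)) (rd (qY (.sub (.r 15) (.r 13))) (.r 11))).ev s2
          = ZA g j n (dec n X) * ZA f (r - j) n (dec n X) := by
        show (rd (qZ (.r 13)) (.r 11)).ev s2 * (rd (qY (.sub (.r 15) (.r 13))) (.r 11)).ev s2 = _
        rw [evz, evy]
      apply Tr.asg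
      · refine ⟨?_, ⟨okz, oky, ?_⟩, ?_⟩
        · simp only [Ex.ok, h20]; exact hs1
        · rw [evz, evy]; omega
        · rw [evp]; simp only [Ex.ev, h20]; exact hs2
      · simp [Ex.cost, rd, cell, qZ, qY]
      · refine ⟨?_, ?_⟩
        · simp only [St.set_mem]; exact hm
        · rw [St.set_reg_ne _ _ (by norm_num), St.set_reg_self, Finset.sum_range_succ]
          show (Ex.r 20).ev s2 + _ = _
          rw [evp]; simp only [Ex.ev, h20]
    · rintro s2 ⟨hm, h20⟩ _ hfr2
      have r0' : s2.reg 0 = n := by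
        rw [hfr2 0 (by norm_num) (by decide), St.set_reg_ne _ _ (by norm_num), r0]
      rw [← HB_zero] at h20
      refine ⟨hm, ?_, ?_, ?_, h20⟩
      · simp only [qH, Ex.ok, Ex.ev, r0']; omega
      · simp only [qH, Ex.ev, r0']
      · simp only [Ex.ok, h20]; exact HB_lt P _ _ _ _ _
  · intro s' hK hval hfr
    apply hQ s' hK hval
    intro y hy
    apply hfr
    · rintro rfl; exact hy (by decide)
    · intro h; apply hy
      simp only [codeH, fill, HC.wr, List.mem_append, List.mem_cons] at h ⊢
      tauto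

/-- Update of the table for the sets of cardinality `r`. -/
def codeV : HC := fill
  (.ite (ab (rd qP (.r 11)) (.r 15)) (.c 1)
    (.ite (.c 0) (rd qH (.r 11)) (.asg 20 (.c 1)) (.asg 20 (.c 0)))
    (.asg 20 (rd qG (.r 11)))) qG (.r 20)

theorem tr_V {w n M r : ℕ} {old new : Finset (Fin n) → Bool} {hv : ℕ → ℕ}
    {s : St} {Q : St → Prop} (P : Par w n M) (E : Env n M s)
    (hP : HasP n M s) (h15 : s.reg 15 = r) (hr : r ≤ n)
    (hS : ∀ X < M, bl M s (n + 4) X = if (dec n X).card < r then (new (dec n X)).toNat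
      else (old (dec n X)).toNat)
    (hH : ∀ X < M, bl M s (n + 6) X = hv X) (hlt : ∀ X, hv X < 2 ^ w)
    (hnew : ∀ X < M, (dec n X).card = r → (0 < hv X ↔ new (dec n X) = true))
    (hQ : ∀ s', Keep M (fun q => q = n + 4) s s' →
      (∀ X < M, bl M s' (n + 4) X = if (dec n X).card < r + 1 then (new (dec n X)).toNat
      else (old (dec n X)).toNat) →
      (∀ y, y ∉ codeV.wr → s'.reg y = s.reg y) → Q s') :
    Tr w codeV s (110 * M) Q := by
  have hM := P.hM
  have b1 := P.b1
  have b3 := P.b3
  have b4 := P.b4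
  have hpos := P.pos
  have hMw := P.Mw
  refine tr_fill (q := n + 4) (Qm := 3 * n + 9) (τ := 80)
    (val := fun X => if (dec n X).card < r + 1 then (new (dec n X)).toNat
      else (old (dec n X)).toNat) E.r2 hMw b1 (by omega) (by decide) (by decide)
    (by omega) ?_ ?_ ?_
  · simp only [qG, Ex.cost]; omega
  · intro X hX s1 hfr1 r11 hK1 hlo hhi
    have r0 : s1.reg 0 = n := by rw [hfr1 0 (by norm_num) (by decide), E.r0]
    have r2 : s1.reg 2 = M := by rw [hfr1 2 (by norm_num) (by decide), E.r2]
    have r15 : s1.reg 15 = r := by rw [hfr1 15 (by norm_num) (by decide), h15]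
    have hcn : (dec n X).card ≤ n := by
      have := Finset.card_le_univ (dec n X); simpa using this
    have hevp : (rd qP (.r 11)).ev s1 = (dec n X).card := by
      rw [rd_ev r2]; simp only [qP, Ex.ev, r0, r11]
      rw [hK1.bl hX (by omega)]; exact hP X hX
    have hokp : (rd qP (.r 11)).ok w s1 := by
      apply rd_ok r2 hMw b1
      · simp only [qP, Ex.ok, Ex.ev, r0]; omega
      · simp only [Ex.ok, r11]; omega
      · simp only [qP, Ex.ev, r0]; omega
      · simp only [Ex.ev, r11]; omega
      · rw [← rd_ev r2, hevp]; omega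
    have hevh : (rd qH (.r 11)).ev s1 = hv X := by
      rw [rd_ev r2]; simp only [qH, Ex.ev, r0, r11]
      rw [hK1.bl hX (by omega)]; exact hH X hX
    have hokh : (rd qH (.r 11)).ok w s1 := by
      apply rd_ok r2 hMw b1
      · simp only [qH, Ex.ok, Ex.ev, r0]; omega
      · simp only [Ex.ok, r11]; omega
      · simp only [qH, Ex.ev, r0]; omega
      · simp only [Ex.ev, r11]; omega
      · rw [← rd_ev r2, hevh]; exact hlt X
    have hn1 := Bool.toNat_le (new (dec n X))
    have ho1 := Bool.toNat_le (old (dec n X))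
    have hevg : (rd qG (.r 11)).ev s1 = if (dec n X).card < r then (new (dec n X)).toNat
        else (old (dec n X)).toNat := by
      rw [rd_ev r2]; simp only [qG, Ex.ev, r0, r11]
      rw [hhi X le_rfl hX]; exact hS X hX
    have hokg : (rd qG (.r 11)).ok w s1 := by
      apply rd_ok r2 hMw b1
      · simp only [qG, Ex.ok, Ex.ev, r0]; omega
      · simp only [Ex.ok, r11]; omega
      · simp only [qG, Ex.ev, r0]; omega
      · simp only [Ex.ev, r11]; omega
      · rw [← rd_ev r2, hevg]; split_ifs <;> omega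
    have fin : ∀ z, z < 2 ^ w → z = (if (dec n X).card < r + 1 then (new (dec n X)).toNat
        else (old (dec n X)).toNat) →
        (s1.set 20 z).mem = s1.mem ∧ qG.ok w (s1.set 20 z) ∧
        qG.ev (s1.set 20 z) = n + 4 ∧ (Ex.r 20).ok w (s1.set 20 z) ∧
        (Ex.r 20).ev (s1.set 20 z) = (if (dec n X).card < r + 1 then (new (dec n X)).toNat
        else (old (dec n X)).toNat) := by
      intro z hz hz'
      have : (s1.set 20 z).reg 0 = n := by rw [St.set_reg_ne _ _ (by norm_num), r0]
      refine ⟨rfl, ?_, ?_, ?_, ?_⟩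
      · simp only [qG, Ex.ok, Ex.ev, this]; omega
      · simp only [qG, Ex.ev, this]
      · simp only [Ex.ok, St.set_reg_self]; exact hz
      · simp only [Ex.ev, St.set_reg_self]; exact hz'
    apply Tr.ite (T := 30)
    · refine ⟨⟨hokp, ?_⟩, ⟨?_, hokp⟩, ?_⟩
      · simp only [Ex.ok, r15]; omega
      · simp only [Ex.ok, r15]; omega
      · show (rd qP (.r 11)).ev s1 - s1.reg 15 + (s1.reg 15 - (rd qP (.r 11)).ev s1) < _
        rw [hevp, r15]; omega
    · simp only [Ex.ok]; omega
    · simp only [ab, Ex.cost, rd, cell, qP]; omega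
    · intro hlt'
      have h := ab_ev.1 hlt'
      rw [hevp] at h
      have h' : (dec n X).card = r := by rw [h]; exact r15
      apply Tr.ite (T := 5)
      · simp only [Ex.ok]; omega
      · exact hokh
      · simp only [Ex.cost, rd, cell, qH]; omega
      · intro hl2
        have hl2' : 0 < (rd qH (.r 11)).ev s1 := hl2
        rw [hevh, hnew X hX h'] at hl2'
        apply Tr.asg (by simp only [Ex.ok]; omega) (by simp only [Ex.cost]; omega)
        apply fin
        · simp only [Ex.ev]; omega
        · rw [if_pos (by omega), hl2']; rfl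
      · intro hl2
        have hl2' : ¬ 0 < (rd qH (.r 11)).ev s1 := hl2
        rw [hevh, hnew X hX h', Bool.not_eq_true] at hl2'
        apply Tr.asg (by simp only [Ex.ok]; omega) (by simp only [Ex.cost]; omega)
        apply fin
        · simp only [Ex.ev]; omega
        · rw [if_pos (by omega), hl2']; rfl
    · intro hlt'
      have h : (dec n X).card ≠ r := by
        intro h
        apply hlt'
        have : (ab (rd qP (.r 11)) (.r 15)).ev s1 < 1 := by
          rw [ab_ev, hevp]; simp only [Ex.ev, r15]; exact h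
        exact this
      apply Tr.asg hokg (by simp only [Ex.cost, rd, cell, qG]; omega)
      apply fin
      · rw [hevg]; split_ifs <;> omega
      · rw [hevg]
        by_cases h1 : (dec n X).card < r
        · rw [if_pos h1, if_pos (by omega)]
        · rw [if_neg h1, if_neg (by omega)]
  · intro s' hK hval hfr
    apply hQ s' hK hval
    intro y hy
    apply hfr
    · rintro rfl; exact hy (by decide)
    · intro h; apply hy
      simp only [codeV, fill, HC.wr, List.mem_append, List.mem_cons] at h ⊢
      tauto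

end Pool.Agent.TH687.DCS
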