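import Pool.Agent.TH687.DCS.Prog6

/-!
The program, part 7: the stages, and the whole program.
-/

set_option autoImplicit false

namespace Pool.Agent.TH687.DCS

open Pool.Agent.H588R2 Pool.Agent.TH687.HL

def codeJ : HC := .loop 13 3 (.seq (codeR (qZ (.r 13)) qG (.r 13))
  (.seq (codeR (qY (.r 13)) qF (.r 13))
    (.seq (codeT .add (qZ (.r 13))) (codeT .add (qY (.r 13))))))

theorem tr_J {w n M : ℕ} {g f : Finset (Fin n) → Bool} {s : St} {Q : St → Prop}
    (P : Par w n M) (E : Env n M s) (h3 : s.reg 3 = n + 1)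
    (hB : HasB n M s) (hP : HasP n M s) (hG : HasT n M (n + 4) g s) (hF : HasT n M (n + 5) f s)
    (hQ : ∀ s', Keep M (fun q => n + 7 ≤ q) s s' →
      (∀ j ≤ n, ∀ X < M, bl M s' (n + 7 + j) X = ZA g j n (dec n X)) →
      (∀ j ≤ n, ∀ X < M, bl M s' (2 * n + 8 + j) X = ZA f j n (dec n X)) →
      (∀ y, y ≠ 4 → y ≠ 10 → y ≠ 11 → y ≠ 13 → y ≠ 20 → s'.reg y = s.reg y) → Q s') :
    Tr w codeJ s (800 * ((n + 1) * (M * (n + 1)))) Q := by
  have hM := P.hM
  have b1 := P.b1
  have b3 := P.b3
  have b4 := P.b4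
  have hpos := P.pos
  have hMw := P.Mw
  refine Tr.loop (fun j s' => Keep M (fun q => n + 7 ≤ q) s s' ∧
      (∀ l < j, ∀ X < M, bl M s' (n + 7 + l) X = ZA g l n (dec n X)) ∧
      (∀ l < j, ∀ X < M, bl M s' (2 * n + 8 + l) X = ZA f l n (dec n X)))
      (700 * (M * (n + 1))) h3 (by omega) (by omega) ?_ ?_ ?_ ?_
  · have := bnd (N := n + 1) (N' := n + 1) (A := M * (n + 1)) (c1 := 700) (c2 := 4) (c3 := 3)
      (C := 800) (by omega) (by omega) (by nlinarith) (by norm_num)
    exact this
  · exact ⟨Keep.of_mem rfl, fun l hl => by omega, fun l hl => by omega⟩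
  · rintro j hj s1 ⟨hK, hz, hy⟩ r13 hfr
    have hreg : ∀ y, y ≠ 4 → y ≠ 10 → y ≠ 11 → y ≠ 13 → y ≠ 20 → s1.reg y = s.reg y :=
      fun y h1 h2 h3 h4 h5 => hfr y h4 (by simp [HC.wr, codeR, codeT, fill, pwLoop, h1, h2, h3, h5])
    have r0 : s1.reg 0 = n := by
      rw [hreg 0 (by norm_num) (by norm_num) (by norm_num) (by norm_num) (by norm_num), E.r0]
    have r2 : s1.reg 2 = M := by
      rw [hreg 2 (by norm_num) (by norm_num) (by norm_num) (by norm_num) (by norm_num), E.r2]
    have pz : Pt w s1 (qZ (.r 13)) (n + 7 + j) := by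
      intro s' hs'
      have a0 : s'.reg 0 = n := by
        rw [hs' 0 (by norm_num) (by norm_num) (by norm_num) (by norm_num), r0]
      have a13 : s'.reg 13 = j := by
        rw [hs' 13 (by norm_num) (by norm_num) (by norm_num) (by norm_num), r13]
      constructor
      · simp only [qZ, Ex.ok, Ex.ev, a0, a13]; omega
      · simp only [qZ, Ex.ev, a0, a13]
    have py : Pt w s1 (qY (.r 13)) (2 * n + 8 + j) := by
      intro s' hs'
      have a0 : s'.reg 0 = n := by
        rw [hs' 0 (by norm_num) (by norm_num) (by norm_num) (by norm_num), r0]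
      have a13 : s'.reg 13 = j := by
        rw [hs' 13 (by norm_num) (by norm_num) (by norm_num) (by norm_num), r13]
      simp only [qY, Ex.ok, Ex.ev, a0, a13]; omega
    have pg : Pt w s1 qG (n + 4) := by
      intro s' hs'
      have a0 : s'.reg 0 = n := by
        rw [hs' 0 (by norm_num) (by norm_num) (by norm_num) (by norm_num), r0]
      constructor
      · simp only [qG, Ex.ok, Ex.ev, a0]; omega
      · simp only [qG, Ex.ev, a0]
    have pf : Pt w s1 qF (n + 5) := by
      intro s' hs'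
      have a0 : s'.reg 0 = n := by
        rw [hs' 0 (by norm_num) (by norm_num) (by norm_num) (by norm_num), r0]
      constructor
      · simp only [qF, Ex.ok, Ex.ev, a0]; omega
      · simp only [qF, Ex.ev, a0]
    have pj : Pt w s1 (.r 13) j := by
      intro s' hs'
      have a13 : s'.reg 13 = j := by
        rw [hs' 13 (by norm_num) (by norm_num) (by norm_num) (by norm_num), r13]
      constructor
      · simp only [Ex.ok, a13]; omega
      · simp only [Ex.ev, a13]
    have hMA : 1 ≤ M * (n + 1) := by nlinarith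
    have hMle : M ≤ M * (n + 1) := Nat.le_mul_of_pos_right _ (by omega)
    have hcomm : ∀ c : ℕ, n * (M * c + 14) + 6 ≤ (c + 20) * (M * (n + 1)) := by
      intro c
      nlinarith
    have hcost1 : M * (2 * (Ex.r 13).cost + qG.cost + (qZ (.r 13)).cost + 60) + 3 ≤
        80 * (M * (n + 1)) := by
      simp only [Ex.cost, qG, qZ]; omega
    have hcost2 : M * (2 * (Ex.r 13).cost + qF.cost + (qY (.r 13)).cost + 60) + 3 ≤
        90 * (M * (n + 1)) := by
      simp only [Ex.cost, qF, qY]; omega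
    refine (Tr.seq (T := 80 * (M * (n + 1))) (T' := 500 * (M * (n + 1))) ?_).mono (by omega)
      (fun _ h => h)
    have hB1 : HasB n M s1 := hB.keep hK (fun q hq => by omega)
    have hP1 : HasP n M s1 := fun X hX => by rw [hK.bl hX (by omega)]; exact hP X hX
    have hG1 : HasT n M (n + 4) g s1 := hG.keep hK (by omega)
    have hF1 : HasT n M (n + 5) f s1 := hF.keep hK (by omega)
    refine tr_R P ⟨r0, r2⟩ hP1 hG1 pz pg pj (by omega) (by omega) (by omega) (by omega)
      (by omega) hcost1 ?_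
    intro s2 hK2 hv2 hr2
    have rr2 : ∀ y, y ≠ 4 → y ≠ 10 → y ≠ 11 → y ≠ 20 → s2.reg y = s1.reg y :=
      fun y _ _ h3 h4 => hr2 y h3 h4
    have E2 : Env n M s2 := ⟨by rw [hr2 0 (by norm_num) (by norm_num), r0],
      by rw [hr2 2 (by norm_num) (by norm_num), r2]⟩
    refine (Tr.seq (T := 90 * (M * (n + 1))) (T' := 400 * (M * (n + 1))) ?_).mono (by omega)
      (fun _ h => h)
    have hP2 : HasP n M s2 := fun X hX => by rw [hK2.bl hX (by omega)]; exact hP1 X hX
    have hF2 : HasT n M (n + 5) f s2 := hF1.keep hK2 (by omega)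
    refine tr_R P E2 hP2 hF2 (py.keep rr2) (pf.keep rr2) (pj.keep rr2) (by omega) (by omega)
      (by omega) (by omega) (by omega) hcost2 ?_
    intro s3 hK3 hv3 hr3
    have rr3 : ∀ y, y ≠ 4 → y ≠ 10 → y ≠ 11 → y ≠ 20 → s3.reg y = s1.reg y :=
      fun y h1 h2 h3 h4 => (hr3 y h3 h4).trans (rr2 y h1 h2 h3 h4)
    have E3 : Env n M s3 := ⟨by rw [hr3 0 (by norm_num) (by norm_num), E2.r0],
      by rw [hr3 2 (by norm_num) (by norm_num), E2.r2]⟩
    have hB3 : HasB n M s3 := (hB1.keep hK2 (by rintro q rfl; omega)).keep hK3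
      (by rintro q rfl; omega)
    refine (Tr.seq (T := 110 * (M * (n + 1))) (T' := 290 * (M * (n + 1))) ?_).mono (by omega)
      (fun _ h => h)
    have hFz : ∀ (h : Finset (Fin n) → Bool) (l : ℕ), ∀ v < n, ∀ X < M,
        ZA h l (v + 1) (dec n X) = if X.testBit v = true then
          ZA h l v (dec n X) + ZA h l v (dec n (X - 2 ^ v)) else ZA h l v (dec n X) := by
      intro h l v hv X hX
      split_ifs with ht
      · rw [dec_sub (v := ⟨v, hv⟩) ht]
        exact ZA_succ_mem h l ⟨v, hv⟩ _ (by rw [mem_dec]; exact ht)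
      · exact ZA_succ_notMem h l ⟨v, hv⟩ _ (by rw [mem_dec]; exact ht)
    have hokadd : ∀ (a b : Ex) (s : St), a.ok w s → b.ok w s → a.ev s + b.ev s < 2 ^ w →
        (Ex.add a b).ok w s := fun a b s h1 h2 h3 => ⟨h1, h2, h3⟩
    refine tr_T (opN := fun a b => a + b) (dc := 7) P E3 hB3 (fun _ _ _ => rfl) hokadd
      (fun _ _ => rfl) (fun v X => ZA g j v (dec n X)) (hFz g j) (fun v X => ZA_lt P _ _ _ _)
      (pz.keep rr3) (by simp [Ex.cost, qZ]) (by omega) (by omega) ?_ ?_ ?_
    · intro X hX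
      rw [hK3.bl hX (by omega)]; exact hv2 X hX
    · exact (hcomm _).trans (Nat.mul_le_mul_right _ (by norm_num))
    intro s4 hK4 hv4 hr4
    have rr4 : ∀ y, y ≠ 4 → y ≠ 10 → y ≠ 11 → y ≠ 20 → s4.reg y = s1.reg y :=
      fun y h1 h2 h3 h4 => (hr4 y h1 h2 h3 h4).trans (rr3 y h1 h2 h3 h4)
    have E4 : Env n M s4 :=
      ⟨by rw [hr4 0 (by norm_num) (by norm_num) (by norm_num) (by norm_num), E3.r0],
       by rw [hr4 2 (by norm_num) (by norm_num) (by norm_num) (by norm_num), E3.r2]⟩
    refine tr_T (opN := fun a b => a + b) (dc := 10) P E4 (hB3.keep hK4 (by rintro q rfl; omega))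
      (fun _ _ _ => rfl) hokadd
      (fun _ _ => rfl) (fun v X => ZA f j v (dec n X)) (hFz f j) (fun v X => ZA_lt P _ _ _ _)
      (py.keep rr4) (by simp [Ex.cost, qY]) (by omega) (by omega) ?_ ?_ ?_
    · intro X hX
      rw [hK4.bl hX (by omega)]; exact hv3 X hX
    · exact (hcomm _).trans (Nat.mul_le_mul_right _ (by norm_num))
    intro s5 hK5 hv5 _
    refine ⟨?_, ?_, ?_⟩
    · refine Keep.trans (s' := s5) ?_ (Keep.of_mem rfl)
      exact (((hK.trans (hK2.mono (by rintro q rfl; omega))).trans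
        (hK3.mono (by rintro q rfl; omega))).trans (hK4.mono (by rintro q rfl; omega))).trans
        (hK5.mono (by rintro q rfl; omega))
    · intro l hl X hX
      show bl M s5 (n + 7 + l) X = _
      by_cases e : l = j
      · subst e
        rw [hK5.bl hX (by omega)]; exact hv4 X hX
      · rw [hK5.bl hX (by omega), hK4.bl hX (by omega), hK3.bl hX (by omega),
          hK2.bl hX (by omega)]
        exact hz l (by omega) X hX
    · intro l hl X hX
      show bl M s5 (2 * n + 8 + l) X = _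
      by_cases e : l = j
      · subst e; exact hv5 X hX
      · rw [hK5.bl hX (by omega), hK4.bl hX (by omega), hK3.bl hX (by omega),
          hK2.bl hX (by omega)]
        exact hy l (by omega) X hX
  · rintro s1 ⟨hK, hz, hy⟩ _ hfr
    refine hQ s1 hK (fun j hj => hz j (by omega)) (fun j hj => hy j (by omega)) ?_
    intro y h1 h2 h3 h4 h5
    exact hfr y h4 (by simp [HC.wr, codeR, codeT, fill, pwLoop, h1, h2, h3, h5])

def codeK : HC := .loop 15 3 (.seq (.asg 16 (.add (.r 15) (.c 1)))
  (.seq codeH (.seq (codeT .sub qH) codeV)))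

open Classical in
/-- Boolean subset convolution. -/
noncomputable def cvb {n : ℕ} (g f : Finset (Fin n) → Bool) (S : Finset (Fin n)) : Bool :=
  decide (Conv g f S)

theorem cvb_true {n : ℕ} {g f : Finset (Fin n) → Bool} {S : Finset (Fin n)} :
    cvb g f S = true ↔ Conv g f S := by
  classical
  unfold cvb; exact decide_eq_true_iff

theorem tr_K {w n M : ℕ} {g f : Finset (Fin n) → Bool} {s : St} {Q : St → Prop}
    (P : Par w n M) (E : Env n M s) (h3 : s.reg 3 = n + 1)
    (hB : HasB n M s) (hP : HasP n M s) (hG : HasT n M (n + 4) g s)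
    (hZ : ∀ j ≤ n, ∀ X < M, bl M s (n + 7 + j) X = ZA g j n (dec n X))
    (hY : ∀ j ≤ n, ∀ X < M, bl M s (2 * n + 8 + j) X = ZA f j n (dec n X))
    (hQ : ∀ s', Keep M (fun q => q = n + 4 ∨ q = n + 6) s s' →
      HasT n M (n + 4) (cvb g f) s' →
      (∀ y, y ∉ codeK.wr → s'.reg y = s.reg y) → Q s') :
    Tr w codeK s (500 * ((n + 1) * (M * (n + 1)))) Q := by
  have hM := P.hM
  have b1 := P.b1
  have b3 := P.b3
  have b4 := P.b4
  have hpos := P.pos
  have hMw := P.Mw
  refine Tr.loop (fun r s' => Keep M (fun q => q = n + 4 ∨ q = n + 6) s s' ∧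
      (∀ X < M, bl M s' (n + 4) X = if (dec n X).card < r then (cvb g f (dec n X)).toNat
        else (g (dec n X)).toNat))
      (400 * (M * (n + 1))) h3 (by omega) (by omega) ?_ ?_ ?_ ?_
  · have := bnd (N := n + 1) (N' := n + 1) (A := M * (n + 1)) (c1 := 400) (c2 := 4) (c3 := 3)
      (C := 500) (by omega) (by omega) (by nlinarith) (by norm_num)
    exact this
  · refine ⟨Keep.of_mem rfl, ?_⟩
    intro X hX
    rw [if_neg (by omega)]
    exact hG X hX
  · rintro r hr s1 ⟨hK, hT⟩ r15 hfr
    have r0 : s1.reg 0 = n := by rw [hfr 0 (by norm_num) (by decide), E.r0]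
    have r2 : s1.reg 2 = M := by rw [hfr 2 (by norm_num) (by decide), E.r2]
    have hMle : M ≤ M * (n + 1) := Nat.le_mul_of_pos_right _ (by omega)
    have hMA : 1 ≤ M * (n + 1) := by nlinarith
    refine (Tr.seq (T := 6) (T' := 360 * (M * (n + 1))) (Tr.asg ?_ (by simp [Ex.cost])
      ?_)).mono (by omega) (fun _ h => h)
    · simp only [Ex.ok, Ex.ev, r15]; omega
    simp only [Ex.ev, r15]
    refine (Tr.seq (T := 120 * (M * (n + 1))) (T' := 240 * (M * (n + 1))) ?_).mono (by omega)
      (fun _ h => h)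
    refine tr_H (r := r) (g := g) (f := f) P ⟨?_, ?_⟩ ?_ ?_ ?_ ?_ (by omega) ?_
    · rw [St.set_reg_ne _ _ (by norm_num), r0]
    · rw [St.set_reg_ne _ _ (by norm_num), r2]
    · intro j hj X hX
      show bl M s1 _ X = _
      rw [hK.bl hX (by omega)]; exact hZ j hj X hX
    · intro j hj X hX
      show bl M s1 _ X = _
      rw [hK.bl hX (by omega)]; exact hY j hj X hX
    · rw [St.set_reg_ne _ _ (by norm_num), r15]
    · rw [St.set_reg_self]
    intro s2 hK2 hv2 hr2
    have hK2' : Keep M (fun q => q = n + 6) s1 s2 := fun a ha => hK2 a ha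
    have E2 : Env n M s2 :=
      ⟨by rw [hr2 0 (by decide), St.set_reg_ne _ _ (by norm_num), r0],
       by rw [hr2 2 (by decide), St.set_reg_ne _ _ (by norm_num), r2]⟩
    have q15 : s2.reg 15 = r := by
      rw [hr2 15 (by decide), St.set_reg_ne _ _ (by norm_num), r15]
    refine (Tr.seq (T := 120 * (M * (n + 1))) (T' := 120 * (M * (n + 1))) ?_).mono (by omega)
      (fun _ h => h)
    have hB2 : HasB n M s2 := (hB.keep hK (by rintro q (rfl | rfl) <;> omega)).keep hK2'
      (by rintro q rfl; omega)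
    have ph : Pt w s2 qH (n + 6) := by
      intro s' hs'
      have a0 : s'.reg 0 = n := by
        rw [hs' 0 (by norm_num) (by norm_num) (by norm_num) (by norm_num), E2.r0]
      constructor
      · simp only [qH, Ex.ok, Ex.ev, a0]; omega
      · simp only [qH, Ex.ev, a0]
    refine tr_T (opN := fun a b => a - b) (dc := 4) P E2 hB2 (fun _ _ _ => rfl)
      (fun a b s h1 h2 _ => ⟨h1, h2⟩)
      (fun _ _ => rfl) (fun v X => HB g f r v (dec n X)) ?_ (fun v X => HB_lt P _ _ _ _ _)
      ph (by simp [Ex.cost, qH]) (by omega) (by omega) hv2 ?_ ?_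
    · intro v hv X hX
      split_ifs with ht
      · rw [dec_sub (v := ⟨v, hv⟩) ht]
        have := HB_succ_mem g f r ⟨v, hv⟩ (dec n X) (by rw [mem_dec]; exact ht)
        simp only at this
        omega
      · exact HB_succ_notMem g f r ⟨v, hv⟩ _ (by rw [mem_dec]; exact ht)
    · nlinarith
    intro s3 hK3 hv3 hr3
    have E3 : Env n M s3 :=
      ⟨by rw [hr3 0 (by norm_num) (by norm_num) (by norm_num) (by norm_num), E2.r0],
       by rw [hr3 2 (by norm_num) (by norm_num) (by norm_num) (by norm_num), E2.r2]⟩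
    have w15 : s3.reg 15 = r := by
      rw [hr3 15 (by norm_num) (by norm_num) (by norm_num) (by norm_num), q15]
    have hP3 : HasP n M s3 := fun X hX => by
      rw [hK3.bl hX (by omega), hK2'.bl hX (by omega), hK.bl hX (by omega)]; exact hP X hX
    refine (tr_V (r := r) (old := g) (new := cvb g f) (hv := fun X => HB g f r n (dec n X))
      P E3 hP3 w15 (by omega) ?_ hv3 (fun X => HB_lt P _ _ _ _ _) ?_ ?_).mono (by omega)
      (fun _ h => h)
    · intro X hX
      rw [hK3.bl hX (by omega), hK2'.bl hX (by omega)]; exact hT X hX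
    · intro X hX hc
      rw [cvb_true, ← hc]
      exact HB_pos g f (dec n X)
    intro s4 hK4 hv4 _
    refine ⟨?_, hv4⟩
    refine Keep.trans (s' := s4) ?_ (Keep.of_mem rfl)
    exact ((hK.trans (hK2'.mono (fun q hq => Or.inr hq))).trans
      (hK3.mono (fun q hq => Or.inr hq))).trans (hK4.mono (fun q hq => Or.inl hq))
  · rintro s1 ⟨hK, hT⟩ _ hfr
    refine hQ s1 hK ?_ ?_
    · intro X hX
      have hcn : (dec n X).card ≤ n := by
        have := Finset.card_le_univ (dec n X); simpa using this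
      rw [hT X hX, if_pos (by omega)]
    · intro y hy
      apply hfr
      · rintro rfl; exact hy (by decide)
      · intro h; apply hy
        simp only [codeK, HC.wr, List.mem_append, List.mem_cons] at h ⊢
        tauto

/-- One stage. -/
def stage : HC := .seq codeF (.seq codeJ codeK)

theorem tr_stage {w n M i : ℕ} {G : SimpleGraph (Fin n)} {lab : ℕ → ℕ}
    {g : Finset (Fin n) → Bool} {s : St} {Q : St → Prop}
    (P : Par w n M) (E : Env n M s) (h3 : s.reg 3 = n + 1)
    (hB : HasB n M s) (hP : HasP n M s) (hI : Inp n M (adjF G) lab s)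
    (hC : HasT n M (n + 3) (cn G) s) (hG : HasT n M (n + 4) g s)
    (h14 : s.reg 14 = i) (hi : i < n) (hlab : ∀ v < n, lab v ≤ n)
    (hQ : ∀ s', Keep M (fun q => n + 4 ≤ q) s s' →
      HasT n M (n + 4) (cvb g (fam G lab (i + 1))) s' →
      (∀ y, y ∉ stage.wr → s'.reg y = s.reg y) → Q s') :
    Tr w stage s (1400 * ((n + 1) * (M * (n + 1)))) Q := by
  have hMle : M * (n + 1) ≤ (n + 1) * (M * (n + 1)) := Nat.le_mul_of_pos_left _ (by omega)
  have hstep : Tr w stage s (1400 * ((n + 1) * (M * (n + 1)))) (fun s' =>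
      Keep M (fun q => n + 4 ≤ q) s s' ∧ HasT n M (n + 4) (cvb g (fam G lab (i + 1))) s') := by
    refine (Tr.seq (T := 100 * (M * (n + 1))) (T' := 1300 * ((n + 1) * (M * (n + 1)))) ?_).mono
      (by omega) (fun _ h => h)
    refine tr_F P E hB hI hC h14 hi hlab ?_
    intro s1 hK1 hF1 hr1
    have E1 : Env n M s1 := ⟨by rw [hr1 0 (by decide), E.r0], by rw [hr1 2 (by decide), E.r2]⟩
    have w3 : s1.reg 3 = n + 1 := by rw [hr1 3 (by decide), h3]
    have hB1 : HasB n M s1 := hB.keep hK1 (by rintro q rfl; omega)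
    have hP1 : HasP n M s1 := fun X hX => by rw [hK1.bl hX (by omega)]; exact hP X hX
    have hG1 : HasT n M (n + 4) g s1 := hG.keep hK1 (by omega)
    refine (Tr.seq (T := 800 * ((n + 1) * (M * (n + 1))))
      (T' := 500 * ((n + 1) * (M * (n + 1)))) ?_).mono (by omega) (fun _ h => h)
    refine tr_J P E1 w3 hB1 hP1 hG1 hF1 ?_
    intro s2 hK2 hz hy hr2
    have E2 : Env n M s2 :=
      ⟨by rw [hr2 0 (by norm_num) (by norm_num) (by norm_num) (by norm_num) (by norm_num), E1.r0],
       by rw [hr2 2 (by norm_num) (by norm_num) (by norm_num) (by norm_num) (by norm_num), E1.r2]⟩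
    have x3 : s2.reg 3 = n + 1 := by
      rw [hr2 3 (by norm_num) (by norm_num) (by norm_num) (by norm_num) (by norm_num), w3]
    have hB2 : HasB n M s2 := hB1.keep hK2 (fun q hq => by omega)
    have hP2 : HasP n M s2 := fun X hX => by rw [hK2.bl hX (by omega)]; exact hP1 X hX
    refine tr_K P E2 x3 hB2 hP2 (hG1.keep hK2 (by omega)) hz hy ?_
    intro s3 hK3 hT3 _
    exact ⟨((hK1.mono (by rintro q rfl; omega)).trans (hK2.mono (fun q hq => by omega))).trans
      (hK3.mono (by rintro q (rfl | rfl) <;> omega)), hT3⟩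
  refine hstep.fr le_rfl ?_
  rintro s' ⟨h1, h2⟩ hr
  exact hQ s' h1 h2 hr

end Pool.Agent.TH687.DCS
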